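import Pool.Agent.PKD.RPL
/-!
RC2 (90 lines). The relation with a common bound.
PROOF. Inductions on Forall₂. vMul: entries l m (norm ≤ κ κ') and l b + m a (norm ≤ 2 κ κ'); use the rfl equations of vMul, rowK (rowK O l m t A B ends with t). len_vMul: length of vMul of two lists of length n: n (n+1)/2;
only 7 is needed.
-/
set_option autoImplicit false

open Pool.Agent.MSQ

namespace Pool.Agent.PKD

theorem C2.mono {C : Cx} {n n' κ κ' : ℕ} {A : List ℕ} {B : List ℝ} (h : C2 C n κ A B) (hn : n ≤ n')
    (hk : κ ≤ κ') : C2 C n' κ' A B := by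
  unfold C2 at h ⊢
  exact h.imp fun _ _ k => k.mono hn hn hk
theorem C2.len {C : Cx} {n κ : ℕ} {A : List ℕ} {B : List ℝ} (h : C2 C n κ A B) : A.length = B.length := by
  unfold C2 at h
  exact h.length_eq
theorem C2.zero (C : Cx) (n κ k : ℕ) :
    C2 C n κ (List.replicate k (C.om.nat 0)) (List.replicate k (C.rr.nat 0)) := by
  unfold C2
  induction k with
  | zero => exact List.Forall₂.nil
  | succ k ih =>
    rw [List.replicate_succ, List.replicate_succ]
    exact List.Forall₂.cons ((R3.nat C n n 0).mono le_rfl le_rfl (Nat.zero_le κ)) ih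
theorem C2.vAdd {C : Cx} {n κ κ' : ℕ} {A A' : List ℕ} {B B' : List ℝ} (h : C2 C n κ A B) (h' : C2 C n κ' A' B') :
    C2 C n (κ + κ') (vAdd C.om A A') (vAdd C.rr B B') := by
  unfold C2 at h h' ⊢
  induction h generalizing A' B' with
  | nil => exact List.Forall₂.nil
  | cons k _ ih =>
    cases h' with
    | nil => exact List.Forall₂.nil
    | cons k' t' => exact List.Forall₂.cons (k.add k') (ih t')
theorem C2.vSub {C : Cx} {n κ κ' : ℕ} {A A' : List ℕ} {B B' : List ℝ} (h : C2 C n κ A B) (h' : C2 C n κ' A' B') :
    C2 C n (κ + κ') (vSub C.om A A') (vSub C.rr B B') := by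
  unfold C2 at h h' ⊢
  induction h generalizing A' B' with
  | nil => exact List.Forall₂.nil
  | cons k _ ih =>
    cases h' with
    | nil => exact List.Forall₂.nil
    | cons k' t' => exact List.Forall₂.cons (k.sub k') (ih t')
theorem C2.vSm {C : Cx} {n n' κ c a : ℕ} {r : ℝ} {A : List ℕ} {B : List ℝ} (ha : R3 C n' n' a r c)
    (h : C2 C n κ A B) : C2 C (n' + n) (c * κ) (vSm C.om a A) (vSm C.rr r B) := by
  unfold C2 at h ⊢
  induction h with
  | nil => exact List.Forall₂.nil
  | cons k _ ih => exact List.Forall₂.cons (ha.mul k) ih
private theorem rc2Row {C : Cx} {n n' κ κ' l l' : ℕ} {r r' : ℝ} (hl : R3 C n n l r κ)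
    (hl' : R3 C n' n' l' r' κ') {T : List ℕ} {V : List ℝ}
    (hT : List.Forall₂ (fun a r => R3 C (n + n') (n + n') a r (2 * (κ * κ'))) T V)
    {A A' : List ℕ} {B B' : List ℝ} (h : List.Forall₂ (fun a r => R3 C n n a r κ) A B)
    (h' : List.Forall₂ (fun a r => R3 C n' n' a r κ') A' B') :
    List.Forall₂ (fun a r => R3 C (n + n') (n + n') a r (2 * (κ * κ')))
      (rowK C.om l l' T A A') (rowK C.rr r r' V B B') := by
  induction h generalizing A' B' with
  | nil => exact hT
  | cons k _ ih =>
    cases h' with
    | nil => exact hT
    | cons k' t' =>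
      have h1 := hl.mul k'
      have h2 := hl'.mul k
      rw [Nat.add_comm n' n] at h2
      refine List.Forall₂.cons ((h1.add h2).mono le_rfl le_rfl ?_) (ih t')
      show κ * κ' + κ' * κ ≤ 2 * (κ * κ')
      rw [Nat.mul_comm κ' κ]
      omega

theorem C2.vMul {C : Cx} {n n' κ κ' : ℕ} {A A' : List ℕ} {B B' : List ℝ} (h : C2 C n κ A B)
    (h' : C2 C n' κ' A' B') : C2 C (n + n') (2 * (κ * κ')) (vMul C.om A A') (vMul C.rr B B') := by
  unfold C2 at h h' ⊢
  induction h generalizing A' B' with
  | nil => exact List.Forall₂.nil
  | cons k t ih =>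
    cases h' with
    | nil => exact List.Forall₂.nil
    | cons k' t' =>
      refine List.Forall₂.cons ((k.mul k').mono le_rfl le_rfl ?_) (rc2Row k k' (ih t') t t')
      show κ * κ' ≤ 2 * (κ * κ')
      omega
theorem len_vAdd {α : Type} (O : Ops α) {A B : List α} (h : A.length = B.length) :
    (vAdd O A B).length = A.length := by
  induction A generalizing B with
  | nil => rfl
  | cons a A ih =>
    cases B with
    | nil => simp at h
    | cons b B =>
      have h1 : A.length = B.length := by simpa using h
      exact congrArg Nat.succ (ih h1)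
theorem len_vSub {α : Type} (O : Ops α) {A B : List α} (h : A.length = B.length) :
    (vSub O A B).length = A.length := by
  induction A generalizing B with
  | nil => rfl
  | cons a A ih =>
    cases B with
    | nil => simp at h
    | cons b B =>
      have h1 : A.length = B.length := by simpa using h
      exact congrArg Nat.succ (ih h1)
theorem len_vSm {α : Type} (O : Ops α) (c : α) (A : List α) : (vSm O c A).length = A.length := by
  induction A with
  | nil => rfl
  | cons a A ih => exact congrArg Nat.succ ih
private theorem rc2LenRow {α : Type} (O : Ops α) (l m : α) (t : List α) {A B : List α} (h : A.length = B.length) :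
    (rowK O l m t A B).length = A.length + t.length := by
  induction A generalizing B with
  | nil => exact (Nat.zero_add _).symm
  | cons a A ih =>
    cases B with
    | nil => simp at h
    | cons b B =>
      have h1 : A.length = B.length := by simpa using h
      have h2 := congrArg Nat.succ (ih h1)
      rw [List.length_cons, Nat.succ_add]
      exact h2

private def rc2Tri : ℕ → ℕ
  | 0 => 0
  | n + 1 => (n + rc2Tri n) + 1

private theorem rc2Len {α : Type} (O : Ops α) {A B : List α} (h : A.length = B.length) :
    (vMul O A B).length = rc2Tri A.length := by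
  induction A generalizing B with
  | nil => rfl
  | cons a A ih =>
    cases B with
    | nil => simp at h
    | cons b B =>
      have h1 : A.length = B.length := by simpa using h
      have h2 := rc2LenRow O a b (vMul O A B) h1
      rw [ih h1] at h2
      exact congrArg Nat.succ h2

theorem len_vMul {α : Type} (O : Ops α) {A B : List α} (hA : A.length = 7) (hB : B.length = 7) :
    (vMul O A B).length = 28 := by
  have h := rc2Len O (A := A) (B := B) (hA.trans hB.symm)
  rw [hA] at h
  exact h

end Pool.Agent.PKD
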