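import Pool.Agent.PKD.RPL
/-!
RPV (110 lines). Relations for polynomials.
PROOF. Inductions on the lists (general N resp. l); unfold List.rec by rfl equations (see RPL). For dI: cases of the integer. For pvI, dgr: row factor of degree (n1, m1), inner value of degree (n2, m2), the product has degree
(n1+n2, m1+m2) ≤ (n, m), R3.mono. pvo: R3.sub, R3.mul with R3.nat C 0 0.
-/
set_option autoImplicit false

open Pool.Agent.MSQ

namespace Pool.Agent.PKD

private theorem rpvNatMul {C : Cx} {n m a c : ℕ} {r : ℝ} (z : ℕ) (h : R3 C n m a r c) :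
    R3 C n m (C.om.mul (C.om.nat z) a) (C.rr.mul (C.rr.nat z) r) (ON.mul (ON.nat z) c) := by
  have h1 := (R3.nat C 0 0 z).mul h
  rw [Nat.zero_add, Nat.zero_add] at h1
  exact h1

theorem sm_rel {C : Cx} {n m : ℕ} {A D : List ℕ} {B : List ℝ} (h : L3 C n m A B D) :
    R3 C n m (sm C.om A) (sm C.rr B) (sm ON D) := by
  unfold L3 at h
  induction h with
  | nil => exact R3.nat C n m 0
  | cons k _ ih => exact k.add ih
theorem dI_rel {C : Cx} {n m : ℕ} {A D : List ℕ} {B : List ℝ} (h : L3 C n m A B D) (l : List ℤ) :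
    R3 C n m (dI C.om A l) (dI C.rr B l) (dI ON D l) := by
  unfold L3 at h
  induction h generalizing l with
  | nil => exact R3.nat C n m 0
  | cons k _ ih =>
    cases l with
    | nil => exact R3.nat C n m 0
    | cons c l =>
      cases c with
      | ofNat z => exact (rpvNatMul z k).add (ih l)
      | negSucc z => exact (ih l).sub (rpvNatMul (Nat.succ z) k)
theorem dgt_rel {C : Cx} {n m : ℕ} {A D : List ℕ} {B : List ℝ} (h : L3 C n m A B D) (K N : ℕ) :
    R3 C n m (dgt C.om K A N) (dgt C.rr K B N) (dgt ON K D N) := by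
  unfold L3 at h
  induction h generalizing N with
  | nil => exact R3.nat C n m 0
  | cons k _ ih => exact (rpvNatMul (Nat.mod N K) k).add (ih (Nat.div N K))
theorem sgr_rel {C : Cx} {n m : ℕ} {u w : List (ℕ × List ℕ)} {v : List (ℝ × List ℝ)} (h : RG C n m u v w) :
    R3 C n m (sgr C.om u) (sgr C.rr v) (sgr ON w) := by
  unfold RG at h
  induction h with
  | nil => exact R3.nat C n m 0
  | cons k _ ih =>
    obtain ⟨n1, m1, n2, m2, hn, hm, h1, h2⟩ := k
    exact ((h1.mul (sm_rel h2)).mono hn hm le_rfl).add ih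
theorem pvI_rel {C : Cx} {n m : ℕ} {u w : List (ℕ × List ℕ)} {v : List (ℝ × List ℝ)} (h : RG C n m u v w)
    (p : List (List ℤ)) : R3 C n m (pvI C.om u p) (pvI C.rr v p) (pvI ON w p) := by
  unfold RG at h
  induction h generalizing p with
  | nil => exact R3.nat C n m 0
  | cons k _ ih =>
    obtain ⟨n1, m1, n2, m2, hn, hm, h1, h2⟩ := k
    cases p with
    | nil => exact R3.nat C n m 0
    | cons r l => exact ((h1.mul (dI_rel h2 r)).mono hn hm le_rfl).add (ih l)
theorem dgr_rel {C : Cx} {n m : ℕ} {u w : List (ℕ × List ℕ)} {v : List (ℝ × List ℝ)} (h : RG C n m u v w)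
    (K L N : ℕ) : R3 C n m (dgr C.om K L u N) (dgr C.rr K L v N) (dgr ON K L w N) := by
  unfold RG at h
  induction h generalizing N with
  | nil => exact R3.nat C n m 0
  | cons k _ ih =>
    obtain ⟨n1, m1, n2, m2, hn, hm, h1, h2⟩ := k
    exact ((h1.mul (dgt_rel h2 K (Nat.mod N L))).mono hn hm le_rfl).add (ih (Nat.div N L))
theorem pvo_rel {C : Cx} {n m : ℕ} {u w : List (ℕ × List ℕ)} {v : List (ℝ × List ℝ)} (h : RG C n m u v w)
    (K L k N : ℕ) : R3 C n m (pvo C.om K L k u N) (pvo C.rr K L k v N) (pvo ON K L k w N) := by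
  exact (dgr_rel h K L N).sub (rpvNatMul k (sgr_rel h))

end Pool.Agent.PKD
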