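import Pool.Agent.PKD.Defs
/-!
RDG (140 lines). Digits of the packed value are the coefficients.
PROOF. p = Σ_{i,j ≤ d} c_ij X^i Y^j by the degree bounds (MvPolynomial over Fin 2: monomials are determined by the exponents (i, j); coefficient cf k := p.coeff (single 0 (k/(d+1)) + single 1 (k % (d+1)))). |cf k| ≤ N1 p ≤ h. eval at X = Y^(d+1), Y:
Σ_k cf k Y^k over k < K = (d+1)*(d+1). a + h reps Y K ≡ Σ_k (cf k + h) Y^k mod Y^K with 0 ≤ cf k + h ≤ 2 h < Y, so the residue is this number (Nat.ofDigits or own induction: Σ_k e_k Y^k < Y^K for digits e_k < Y) and its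
digits are cf k + h.
-/
set_option autoImplicit false

open Pool.Agent.MSQ

namespace Pool.Agent.PKD

theorem reps_eq (Y n : ℕ) : reps Y n = ∑ k ∈ Finset.range n, Y ^ k := by
  induction n with
  | zero => rfl
  | succ n ih =>
    have h : reps Y (n + 1) = 1 + Y * reps Y n := rfl
    rw [h, ih, Finset.sum_range_succ', Finset.mul_sum, pow_zero, add_comm]
    congr 1
    exact Finset.sum_congr rfl fun k _ => (pow_succ' Y k).symm

/-- the exponent with the number `k` -/
private noncomputable def rdgM (d k : ℕ) : Fin 2 →₀ ℕ :=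
  Finsupp.single 0 (k / (d + 1)) + Finsupp.single 1 (k % (d + 1))

private theorem rdgM_zero (d k : ℕ) : rdgM d k 0 = k / (d + 1) := by
  simp [rdgM]

private theorem rdgM_one (d k : ℕ) : rdgM d k 1 = k % (d + 1) := by
  simp [rdgM]

private theorem rdg_inj (d : ℕ) : Function.Injective (rdgM d) := by
  intro k l h
  have h0 := DFunLike.congr_fun h 0
  have h1 := DFunLike.congr_fun h 1
  rw [rdgM_zero, rdgM_zero] at h0
  rw [rdgM_one, rdgM_one] at h1
  rw [← Nat.div_add_mod k (d + 1), ← Nat.div_add_mod l (d + 1), h0, h1]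

private theorem rdg_surj {d : ℕ} {m : Fin 2 →₀ ℕ} (h0 : m 0 ≤ d) (h1 : m 1 ≤ d) :
    ∃ k < (d + 1) * (d + 1), rdgM d k = m := by
  have hd : 0 < d + 1 := Nat.succ_pos d
  refine ⟨(d + 1) * m 0 + m 1, ?_, ?_⟩
  · have h2 : (d + 1) * m 0 ≤ (d + 1) * d := Nat.mul_le_mul_left _ h0
    nlinarith
  · ext i
    fin_cases i
    · change rdgM d ((d + 1) * m 0 + m 1) 0 = m 0
      rw [rdgM_zero, Nat.mul_add_div hd, Nat.div_eq_of_lt (by omega), add_zero]
    · change rdgM d ((d + 1) * m 0 + m 1) 1 = m 1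
      rw [rdgM_one, Nat.mul_add_mod, Nat.mod_eq_of_lt (by omega)]

private theorem rdg_eval {R : Type} [CommRing R] {d : ℕ} (p : MvPolynomial (Fin 2) ℤ)
    (h0 : p.degreeOf 0 ≤ d) (h1 : p.degreeOf 1 ≤ d) (x y : R) :
    MvPolynomial.aeval ![x, y] p = ∑ k ∈ Finset.range ((d + 1) * (d + 1)),
      ((p.coeff (rdgM d k) : ℤ) : R) * (x ^ (k / (d + 1)) * y ^ (k % (d + 1))) := by
  have e1 : MvPolynomial.aeval ![x, y] p =
      ∑ m ∈ p.support, ((p.coeff m : ℤ) : R) * (x ^ (m 0) * y ^ (m 1)) := by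
    rw [MvPolynomial.aeval_def, MvPolynomial.eval₂_eq']
    refine Finset.sum_congr rfl fun m _ => ?_
    rw [Fin.prod_univ_two]
    simp
  have e2 : ∑ k ∈ Finset.range ((d + 1) * (d + 1)),
      ((p.coeff (rdgM d k) : ℤ) : R) * (x ^ (k / (d + 1)) * y ^ (k % (d + 1))) =
      ∑ m ∈ (Finset.range ((d + 1) * (d + 1))).image (rdgM d),
        ((p.coeff m : ℤ) : R) * (x ^ (m 0) * y ^ (m 1)) := by
    rw [Finset.sum_image fun a _ b _ hab => rdg_inj d hab]
    refine Finset.sum_congr rfl fun k _ => ?_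
    rw [rdgM_zero, rdgM_one]
  rw [e1, e2]
  refine Finset.sum_subset ?_ ?_
  · intro m hm
    have hm0 : m 0 ≤ d := (MvPolynomial.monomial_le_degreeOf 0 hm).trans h0
    have hm1 : m 1 ≤ d := (MvPolynomial.monomial_le_degreeOf 1 hm).trans h1
    obtain ⟨k, hk, rfl⟩ := rdg_surj hm0 hm1
    exact Finset.mem_image_of_mem _ (Finset.mem_range.mpr hk)
  · intro m _ hm
    rw [MvPolynomial.notMem_support_iff.mp hm, Int.cast_zero, zero_mul]

private theorem rdg_coeff (p : MvPolynomial (Fin 2) ℤ) (m : Fin 2 →₀ ℕ) :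
    (p.coeff m).natAbs ≤ N1 p := by
  by_cases hm : m ∈ p.support
  · exact Finset.single_le_sum (f := fun m => (p.coeff m).natAbs) (fun _ _ => Nat.zero_le _) hm
  · rw [MvPolynomial.notMem_support_iff.mp hm]
    exact Nat.zero_le _

private theorem rdg_lt {Y : ℕ} {e : ℕ → ℕ} (he : ∀ k, e k < Y) (n : ℕ) :
    ∑ k ∈ Finset.range n, e k * Y ^ k < Y ^ n := by
  induction n with
  | zero => simp
  | succ n ih =>
    rw [Finset.sum_range_succ, pow_succ]
    have h1 : (e n + 1) * Y ^ n ≤ Y * Y ^ n := Nat.mul_le_mul_right _ (he n)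
    nlinarith

private theorem rdg_digit {Y : ℕ} {e : ℕ → ℕ} (he : ∀ k, e k < Y) {n k : ℕ} (hk : k < n) :
    (∑ i ∈ Finset.range n, e i * Y ^ i) / Y ^ k % Y = e k := by
  obtain ⟨l, rfl⟩ := Nat.exists_eq_add_of_lt hk
  have hY : 0 < Y := (Nat.zero_le _).trans_lt (he 0)
  have h1 : ∑ i ∈ Finset.range (k + l + 1), e i * Y ^ i =
      Y ^ k * (e k + Y * ∑ i ∈ Finset.range l, e (k + (i + 1)) * Y ^ i) +
        ∑ i ∈ Finset.range k, e i * Y ^ i := by
    rw [add_assoc, Finset.sum_range_add, Finset.sum_range_succ']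
    rw [Finset.mul_sum, mul_add, Finset.mul_sum]
    have h2 : ∀ i ∈ Finset.range l, e (k + (i + 1)) * Y ^ (k + (i + 1)) =
        Y ^ k * (Y * (e (k + (i + 1)) * Y ^ i)) := by
      intro i _
      rw [pow_add, pow_succ]
      ring
    rw [Finset.sum_congr rfl h2, add_zero]
    ring
  rw [h1, Nat.mul_add_div (pow_pos hY k), Nat.div_eq_of_lt (rdg_lt he k), add_zero,
    Nat.add_mul_mod_self_left, Nat.mod_eq_of_lt (he k)]

theorem R3.digits {C : Cx} {d a c h : ℕ} {r : ℝ} (hr : R3 C d d a r c) (hc : c ≤ h) (hY : 2 * h + 1 ≤ C.Y)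
    (hX : C.X = C.Y ^ (d + 1)) (hN : C.N = C.Y ^ ((d + 1) * (d + 1))) :
    ∃ cf : ℕ → ℤ, (∀ k, |cf k| ≤ h) ∧
      (∀ k < (d + 1) * (d + 1), (((a + h * reps C.Y ((d + 1) * (d + 1))) % C.N / C.Y ^ k % C.Y : ℕ) : ℤ) = cf k + h) ∧
      r = ∑ k ∈ Finset.range ((d + 1) * (d + 1)), (cf k : ℝ) * (C.τ ^ (k / (d + 1)) * C.σ ^ (k % (d + 1))) := by
  obtain ⟨p, h0, h1, hn, ha, hr⟩ := hr
  have hcf : ∀ k, |p.coeff (rdgM d k)| ≤ h := by
    intro k
    rw [Int.abs_eq_natAbs]
    exact_mod_cast (rdg_coeff p (rdgM d k)).trans (hn.trans hc)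
  refine ⟨fun k => p.coeff (rdgM d k), hcf, ?_, ?_⟩
  · intro k hk
    set e : ℕ → ℕ := fun k => (p.coeff (rdgM d k) + h).toNat with he
    have hev : ∀ k, (e k : ℤ) = p.coeff (rdgM d k) + h := by
      intro k
      rw [he]
      have := (abs_le.mp (hcf k)).1
      exact Int.toNat_of_nonneg (by linarith)
    have helt : ∀ k, e k < C.Y := by
      intro k
      have h2 := (abs_le.mp (hcf k)).2
      have h3 := hev k
      have h4 : ((2 * h + 1 : ℕ) : ℤ) ≤ C.Y := by exact_mod_cast hY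
      push_cast at h4
      have : (e k : ℤ) < C.Y := by rw [h3]; linarith
      exact_mod_cast this
    have hmod : (a + h * reps C.Y ((d + 1) * (d + 1))) % C.N =
        ∑ i ∈ Finset.range ((d + 1) * (d + 1)), e i * C.Y ^ i := by
      rw [← Nat.mod_eq_of_lt (a := ∑ i ∈ Finset.range ((d + 1) * (d + 1)), e i * C.Y ^ i)
        (b := C.N) (by rw [hN]; exact rdg_lt helt _)]
      change Nat.ModEq _ _ _
      rw [← Int.natCast_modEq_iff]
      push_cast
      rw [reps_eq]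
      push_cast
      have h5 : MvPolynomial.eval ![(C.X : ℤ), (C.Y : ℤ)] p =
          ∑ k ∈ Finset.range ((d + 1) * (d + 1)), p.coeff (rdgM d k) * (C.Y : ℤ) ^ k := by
        have h6 := rdg_eval p h0 h1 (C.X : ℤ) (C.Y : ℤ)
        rw [MvPolynomial.aeval_def] at h6
        have h7 : MvPolynomial.eval ![(C.X : ℤ), (C.Y : ℤ)] p =
            MvPolynomial.eval₂ (algebraMap ℤ ℤ) ![(C.X : ℤ), (C.Y : ℤ)] p := rfl
        rw [h7, h6]
        refine Finset.sum_congr rfl fun k _ => ?_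
        rw [hX, Int.cast_id]
        push_cast
        rw [← pow_mul, ← pow_add, Nat.div_add_mod]
      rw [h5] at ha
      have h8 : ∑ i ∈ Finset.range ((d + 1) * (d + 1)), (e i : ℤ) * (C.Y : ℤ) ^ i =
          (∑ k ∈ Finset.range ((d + 1) * (d + 1)), p.coeff (rdgM d k) * (C.Y : ℤ) ^ k) +
            h * ∑ k ∈ Finset.range ((d + 1) * (d + 1)), (C.Y : ℤ) ^ k := by
        rw [Finset.mul_sum, ← Finset.sum_add_distrib]
        refine Finset.sum_congr rfl fun k _ => ?_
        rw [hev k, add_mul]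
      rw [h8]
      exact ha.add_right _
    rw [hmod, rdg_digit helt hk, hev k]
  · rw [hr, rdg_eval p h0 h1]

end Pool.Agent.PKD
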