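/-!
PKD: packed verification of the positivity of a matrix of polynomials in two variables. Computable part.

All computations are written for an arbitrary arithmetic `Ops α`. They are carried out with natural numbers
modulo `N = Y^(number of coefficients)` at a large integer point `X = Y^ny` (Kronecker substitution: the
coefficients of the result are the digits in base `Y`).
-/
namespace Pool.Agent.PKD

/-- an arithmetic: addition, subtraction, multiplication, natural constants, two variables -/
structure Ops (α : Type) where
  add : α → α → α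
  sub : α → α → α
  mul : α → α → α
  nat : Nat → α
  X : α
  Y : α

section
variable {α : Type} (O : Ops α)

/-- `A^n` -/
def pw (A : α) : Nat → α
  | 0 => O.nat 1
  | n + 1 => O.mul A (pw A n)
/-- `[A^n, a A^(n-1), ..., a^n]` -/
def mkV (a A : α) : Nat → List α
  | 0 => [O.nat 1]
  | n + 1 => pw O A (n + 1) :: (mkV a A n).map (O.mul a)
/-- the same inner list for all outer factors -/
def tens (u v : List α) : List (α × List α) := u.map fun x => (x, v)
/-- monomials `c x^i y^j z^(d-i-j)`, rows `i` -/
def triR (x y z : α) : Nat → α → List (α × List α)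
  | 0, c => [(c, [O.nat 1])]
  | n + 1, c => (c, mkV O y z (n + 1)) :: triR x y z n (O.mul c x)

/-- sum of a list -/
noncomputable def sm (v : List α) : α := List.rec (motive := fun _ => α) (O.nat 0) (fun x _ ih => O.add x ih) v
/-- `Σ_i u_i Σ_j v_ij` -/
noncomputable def sgr (u : List (α × List α)) : α :=
  List.rec (motive := fun _ => α) (O.nat 0) (fun x _ ih => O.add (O.mul x.1 (sm O x.2)) ih) u
/-- `Σ d_j v_j`, `d_j` the digits of `N` in base `K` -/
noncomputable def dgt (K : Nat) (v : List α) (N : Nat) : α :=
  List.rec (motive := fun _ => Nat → α) (fun _ => O.nat 0)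
    (fun y _ ih N => O.add (O.mul (O.nat (Nat.mod N K)) y) (ih (Nat.div N K))) v N
/-- `Σ_i u_i Σ_j d_ij v_ij`, the rows are the digits in base `L` -/
noncomputable def dgr (K L : Nat) (u : List (α × List α)) (N : Nat) : α :=
  List.rec (motive := fun _ => Nat → α) (fun _ => O.nat 0)
    (fun x _ ih N => O.add (O.mul x.1 (dgt O K x.2 (Nat.mod N L))) (ih (Nat.div N L))) u N
/-- value of a packed polynomial, coefficients `d - h` -/
noncomputable def pvo (K L h : Nat) (u : List (α × List α)) (N : Nat) : α :=
  O.sub (dgr O K L u N) (O.mul (O.nat h) (sgr O u))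
/-- `Σ c_j v_j` -/
noncomputable def dI (v : List α) (l : List Int) : α :=
  List.rec (motive := fun _ => List Int → α) (fun _ => O.nat 0)
    (fun y _ ih l => List.casesOn (motive := fun _ => α) l (O.nat 0) fun c l =>
      Int.casesOn (motive := fun _ => α) c (fun n => O.add (O.mul (O.nat n) y) (ih l))
        (fun n => O.sub (ih l) (O.mul (O.nat (Nat.succ n)) y))) v l
/-- `Σ_i u_i Σ_j c_ij v_ij` -/
noncomputable def pvI (u : List (α × List α)) (p : List (List Int)) : α :=
  List.rec (motive := fun _ => List (List Int) → α) (fun _ => O.nat 0)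
    (fun x _ ih l => List.casesOn (motive := fun _ => α) l (O.nat 0) fun r l =>
      O.add (O.mul x.1 (dI O x.2 r)) (ih l)) u p

/-- operations with lists of the same length -/
noncomputable def vAdd (A B : List α) : List α :=
  List.rec (motive := fun _ => List α → List α) (fun _ => [])
    (fun a _ ih B => List.casesOn (motive := fun _ => List α) B [] fun b B => O.add a b :: ih B) A B
noncomputable def vSub (A B : List α) : List α :=
  List.rec (motive := fun _ => List α → List α) (fun _ => [])
    (fun a _ ih B => List.casesOn (motive := fun _ => List α) B [] fun b B => O.sub a b :: ih B) A B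
noncomputable def vSm (c : α) (A : List α) : List α :=
  List.rec (motive := fun _ => List α) [] (fun a _ ih => O.mul c a :: ih) A
/-- rest of a row, followed by the list `t` -/
noncomputable def rowK (l m : α) (t : List α) (A B : List α) : List α :=
  List.rec (motive := fun _ => List α → List α) (fun _ => t)
    (fun a _ ih B => List.casesOn (motive := fun _ => List α) B t fun b B =>
      O.add (O.mul l b) (O.mul m a) :: ih B) A B
/-- product of two linear forms: coefficients of `s_i s_j`, `i ≤ j`, row by row -/
noncomputable def vMul (L M : List α) : List α :=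
  List.rec (motive := fun _ => List α → List α) (fun _ => [])
    (fun l L ih M => List.casesOn (motive := fun _ => List α) M [] fun m M =>
      O.mul l m :: rowK O l m (ih M) L M) L M

end

/-- natural numbers modulo `N` (not reduced after additions) -/
def OM (N X Y : Nat) : Ops Nat :=
  ⟨fun a b => Nat.add a b, fun a b => Nat.add a (Nat.sub N (Nat.mod b N)), fun a b => Nat.mod (Nat.mul a b) N,
    fun n => n, X, Y⟩
/-- bounds for the sum of the absolute values of the coefficients -/
def ON : Ops Nat := ⟨fun a b => Nat.add a b, fun a b => Nat.add a b, fun a b => Nat.mul a b, fun n => n, 1, 1⟩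

def mxL : List Nat → Nat
  | [] => 0
  | a :: l => Nat.add a (Nat.sub (mxL l) a)

/-! ### positive definite matrices

A symmetric `n × n` matrix is given by the rows of the upper triangle. Each row is packed: `Σ m_k Z^k`
modulo `N = Z^n`. -/

/-- the rows of the Schur complement times the pivot `a`: `a R_j - r_j (tail)`; `T` is the rest of the first
row with offset `h` for each digit, `os` the list of `N - offset` -/
noncomputable def stepR (N Z Nh a T : Nat) (os Rs : List Nat) : List Nat :=
  List.rec (motive := fun _ => Nat → List Nat → List Nat) (fun _ _ => [])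
    (fun o _ ih T Rs => List.casesOn (motive := fun _ => List Nat) Rs [] fun R Rs =>
      Nat.mod (Nat.add (Nat.mul a R) (Nat.mul (Nat.sub Nh (Nat.mod T Z)) (Nat.add T o))) N ::
        ih (Nat.div T Z) Rs) os T Rs
/-- all pivots are positive -/
noncomputable def psR (N Z Nh h h1 : Nat) (os : List (Nat × List Nat)) (Rs : List Nat) : Bool :=
  List.rec (motive := fun _ => List Nat → Bool) (fun _ => true)
    (fun o _ ih Rs => List.casesOn (motive := fun _ => Bool) Rs true fun R Rs =>
      (fun T => (fun a => Bool.rec (motive := fun _ => Bool) false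
        (ih (stepR N Z Nh (Nat.sub a h) (Nat.div T Z) o.2 Rs)) (Nat.ble h1 a)) (Nat.mod T Z))
        (Nat.mod (Nat.add R o.1) N)) os Rs

/-- `h (1 + Z + ... + Z^(n-1))` -/
def offL (Z h : Nat) : Nat → Nat
  | 0 => 0
  | n + 1 => Nat.add h (Nat.mul Z (offL Z h n))
def tails (Z h N : Nat) : Nat → List Nat
  | 0 => []
  | n + 1 => Nat.sub N (offL Z h (n + 1)) :: tails Z h N n
def offs (Z h N : Nat) : Nat → List (Nat × List Nat)
  | 0 => []
  | n + 1 => (offL Z h (n + 1), tails Z h N n) :: offs Z h N n
/-- bound for the entries after `n - 1` steps -/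
def bnd : Nat → Nat → Nat
  | 0, B => B
  | 1, B => B
  | n + 2, B => bnd (n + 1) (Nat.mul 2 (Nat.mul B B))

/-! ### digits -/

/-- packed row of the rounded lowest digits -/
noncomputable def rowD (Y rd Z : Nat) (r : List Nat) : Nat :=
  List.rec (motive := fun _ => Nat) 0
    (fun v _ ih => Nat.add (Nat.div (Nat.mod v Y) rd) (Nat.mul Z ih)) r
/-- the rows; the digits have the offset `H`, the first entry of each row is doubled and `e` is subtracted;
`cs` is the list of the constants `N - (offset + H + e)` -/
noncomputable def rowsD (Y rd Z N : Nat) (M : List (List Nat)) (cs : List Nat) : List Nat :=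
  List.rec (motive := fun _ => List Nat → List Nat) (fun _ => [])
    (fun r _ ih cs => List.casesOn (motive := fun _ => List Nat) cs [] fun c cs =>
      Nat.mod (Nat.add (Nat.add (List.casesOn (motive := fun _ => Nat) r 0 fun v _ => Nat.div (Nat.mod v Y) rd)
        (rowD Y rd Z r)) c) N :: ih cs) M cs
noncomputable def divR (Y : Nat) (r : List Nat) : List Nat :=
  List.rec (motive := fun _ => List Nat) [] (fun v _ ih => Nat.div v Y :: ih) r
noncomputable def divM (Y : Nat) (M : List (List Nat)) : List (List Nat) :=
  List.rec (motive := fun _ => List (List Nat)) [] (fun r _ ih => divR Y r :: ih) M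
/-- the matrices of the first `k` digits are positive -/
noncomputable def psA (Y rd N Z Nh h h1 : Nat) (cs : List Nat) (os : List (Nat × List Nat)) (k : Nat)
    (M : List (List Nat)) : Bool :=
  Nat.rec (motive := fun _ => List (List Nat) → Bool) (fun _ => true)
    (fun _ ih M => Bool.rec (motive := fun _ => Bool) false (ih (divM Y M))
      (psR N Z Nh h h1 os (rowsD Y rd Z N M cs))) k M

def csL (Z H N e : Nat) : Nat → List Nat
  | 0 => []
  | n + 1 => Nat.sub N (Nat.add (offL Z H (n + 1)) (Nat.add H e)) :: csL Z H N e n

/-- the test of `k` matrices; the digits in base `Y` are rounded to multiples of `rd` and have the offset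
`rd H`; `zb` number of bits of `Z` -/
noncomputable def psT (n Y rd H zb k : Nat) (M : List (List Nat)) : Bool :=
  Nat.ble (bnd n (Nat.mul 2 (Nat.add (Nat.div Y rd) (Nat.add H (Nat.add n 2))))) (Nat.pow 2 (Nat.sub zb 1)) &&
  Nat.ble 1 rd && Nat.ble 1 zb && Nat.ble 1 Y &&
  psA Y rd (Nat.pow (Nat.add (Nat.pow 2 zb) 1) n) (Nat.add (Nat.pow 2 zb) 1)
    (Nat.add (Nat.pow (Nat.add (Nat.pow 2 zb) 1) n) (Nat.pow 2 (Nat.sub zb 1))) (Nat.pow 2 (Nat.sub zb 1))
    (Nat.add (Nat.pow 2 (Nat.sub zb 1)) 1)
    (csL (Nat.add (Nat.pow 2 zb) 1) H (Nat.pow (Nat.add (Nat.pow 2 zb) 1) n) (Nat.sub n 1) n)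
    (offs (Nat.add (Nat.pow 2 zb) 1) (Nat.pow 2 (Nat.sub zb 1)) (Nat.pow (Nat.add (Nat.pow 2 zb) 1) n) n) k M

/-- rows of the upper triangle -/
def rowsM : Nat → List Nat → List (List Nat)
  | 0, _ => []
  | n + 1, l => l.take (n + 1) :: rowsM n (l.drop (n + 1))
/-- `1 + Y + ... + Y^(n-1)` -/
def reps (Y : Nat) : Nat → Nat
  | 0 => 0
  | n + 1 => Nat.add 1 (Nat.mul Y (reps Y n))
def shiftL (off N : Nat) : List Nat → List Nat
  | [] => []
  | v :: r => Nat.mod (Nat.add v off) N :: shiftL off N r

/-- test of the matrix with the values `Z` modulo `Y^k`, `Y = 2 rd H + 1`, `k` coefficients -/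
noncomputable def mchk (n Y rd H zb k : Nat) (Z : List Nat) : Bool :=
  psT n Y rd H zb k (rowsM n (shiftL (Nat.mul (Nat.mul rd H) (reps Y k)) (Nat.pow Y k) Z))

/-- all digits are at least `h` -/
def geA (Y h : Nat) : Nat → Nat → Bool
  | 0, _ => true
  | k + 1, v => match Nat.ble h (Nat.mod v Y) with
    | true => geA Y h k (Nat.div v Y)
    | false => false
/-- the coefficients of the polynomial with value `v` modulo `Y^k` are nonnegative; `Y = 2 h + 1` -/
def nnchk (Y h k : Nat) (v : Nat) : Bool := geA Y h k (Nat.mod (Nat.add v (Nat.mul h (reps Y k))) (Nat.pow Y k))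

end Pool.Agent.PKD
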