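import Mathlib
import Pool.Agent.PKD.Comp
import Pool.Agent.MSQ.Defs
/-!
PKD: definitions for the soundness proof.
-/
set_option autoImplicit false

open Pool.Agent.MSQ

namespace Pool.Agent.PKD

noncomputable section

/-- context: integer point `(X, Y)`, modulus `N`, real point `(τ, σ)` -/
structure Cx where
  X : ℕ
  Y : ℕ
  N : ℕ
  hN : 0 < N
  τ : ℝ
  σ : ℝ

/-- arithmetic of real numbers -/
def OR (τ σ : ℝ) : Ops ℝ := ⟨fun a b => a + b, fun a b => a - b, fun a b => a * b, fun n => (n : ℝ), τ, σ⟩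
def Cx.om (C : Cx) : Ops ℕ := OM C.N C.X C.Y
def Cx.rr (C : Cx) : Ops ℝ := OR C.τ C.σ

/-- sum of the absolute values of the coefficients -/
def N1 (p : MvPolynomial (Fin 2) ℤ) : ℕ := ∑ m ∈ p.support, (p.coeff m).natAbs

/-- there is a polynomial of degrees at most `n`, `m` and norm at most `c` whose value at `(X, Y)` is
congruent to `a` and whose value at `(τ, σ)` is `r` -/
def R3 (C : Cx) (n m : ℕ) (a : ℕ) (r : ℝ) (c : ℕ) : Prop :=
  ∃ p : MvPolynomial (Fin 2) ℤ, p.degreeOf 0 ≤ n ∧ p.degreeOf 1 ≤ m ∧ N1 p ≤ c ∧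
    ((a : ℤ) ≡ MvPolynomial.eval ![(C.X : ℤ), (C.Y : ℤ)] p [ZMOD C.N]) ∧
    r = MvPolynomial.aeval ![C.τ, C.σ] p

/-- three lists of the same length -/
inductive F3 {α β γ : Type} (R : α → β → γ → Prop) : List α → List β → List γ → Prop
  | nil : F3 R [] [] []
  | cons {a : α} {b : β} {c : γ} {A : List α} {B : List β} {D : List γ} (h : R a b c) (t : F3 R A B D) :
      F3 R (a :: A) (b :: B) (c :: D)

def L3 (C : Cx) (n m : ℕ) : List ℕ → List ℝ → List ℕ → Prop := F3 (R3 C n m)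
/-- rows with outer factors; all products have degrees at most `n`, `m` -/
def RG (C : Cx) (n m : ℕ) : List (ℕ × List ℕ) → List (ℝ × List ℝ) → List (ℕ × List ℕ) → Prop :=
  F3 fun x y z => ∃ n1 m1 n2 m2, n1 + n2 ≤ n ∧ m1 + m2 ≤ m ∧ R3 C n1 m1 x.1 y.1 z.1 ∧ L3 C n2 m2 x.2 y.2 z.2
/-- all entries have degree at most `n` and norm at most `κ` -/
def C2 (C : Cx) (n κ : ℕ) (A : List ℕ) (B : List ℝ) : Prop := List.Forall₂ (fun a r => R3 C n n a r κ) A B

/-- integer value of a packed row -/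
def rowV (Z : ℤ) : List ℤ → ℤ
  | [] => 0
  | a :: r => a + Z * rowV Z r
/-- quadratic form of the symmetric matrix with the rows `M` of the upper triangle -/
def qr : List (List ℤ) → List ℝ → ℝ
  | (a :: r) :: M, x :: v => a * x ^ 2 + 2 * x * dotL (r.map fun z => (z : ℝ)) v + qr M v
  | _, _ => 0
/-- rows of an `n × n` upper triangle -/
def isT : ℕ → List (List ℤ) → Prop
  | 0, M => M = []
  | n + 1, M => ∃ r t, M = r :: t ∧ r.length = n + 1 ∧ isT n t
def isTN : ℕ → List (List ℕ) → Prop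
  | 0, M => M = []
  | n + 1, M => ∃ r t, M = r :: t ∧ r.length = n + 1 ∧ isTN n t

end

end Pool.Agent.PKD
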