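import Pool.Agent.PKD.Defs
/-!
RQF (110 lines). Algebra of the real values (dotL, qf of vAdd, vSub, vSm, vMul).
PROOF. Inductions; the functions are defined by List.rec, first prove the equations by rfl. qf_vMul: as qf_qMul in MTR/QML: qf (l m :: (row ++ rest)) (s :: ss): take (ss.length+1) = l m :: row. rowK O l m t A B = row ++ t for lists of the same
length. qf_vAdd: take/drop commute with vAdd. Lists of the same length are necessary (vAdd truncates).
-/
set_option autoImplicit false

open Pool.Agent.MSQ

namespace Pool.Agent.PKD

variable (τ σ : ℝ)

private theorem rqfAdd0 (B : List ℝ) : vAdd (OR τ σ) [] B = [] := rfl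
private theorem rqfAdd1 (a b : ℝ) (A B : List ℝ) :
    vAdd (OR τ σ) (a :: A) (b :: B) = (a + b) :: vAdd (OR τ σ) A B := rfl
private theorem rqfAdd2 (A : List ℝ) : vAdd (OR τ σ) A [] = [] := by
  cases A <;> rfl
private theorem rqfSub0 (B : List ℝ) : vSub (OR τ σ) [] B = [] := rfl
private theorem rqfSub1 (a b : ℝ) (A B : List ℝ) :
    vSub (OR τ σ) (a :: A) (b :: B) = (a - b) :: vSub (OR τ σ) A B := rfl
private theorem rqfSub2 (A : List ℝ) : vSub (OR τ σ) A [] = [] := by
  cases A <;> rfl
private theorem rqfSm0 (c : ℝ) : vSm (OR τ σ) c [] = [] := rfl
private theorem rqfSm1 (c a : ℝ) (A : List ℝ) : vSm (OR τ σ) c (a :: A) = (c * a) :: vSm (OR τ σ) c A := rfl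

private theorem rqfTakeAdd (A B : List ℝ) (k : ℕ) :
    (vAdd (OR τ σ) A B).take k = vAdd (OR τ σ) (A.take k) (B.take k) := by
  induction k generalizing A B with
  | zero => simp [rqfAdd0]
  | succ k ih =>
    cases A with
    | nil => simp [rqfAdd0]
    | cons a A =>
      cases B with
      | nil => simp [rqfAdd2]
      | cons b B => rw [rqfAdd1, List.take_succ_cons, List.take_succ_cons, List.take_succ_cons, rqfAdd1, ih]
private theorem rqfDropAdd (A B : List ℝ) (k : ℕ) :
    (vAdd (OR τ σ) A B).drop k = vAdd (OR τ σ) (A.drop k) (B.drop k) := by
  induction k generalizing A B with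
  | zero => simp
  | succ k ih =>
    cases A with
    | nil => simp [rqfAdd0]
    | cons a A =>
      cases B with
      | nil => simp [rqfAdd2]
      | cons b B => rw [rqfAdd1, List.drop_succ_cons, List.drop_succ_cons, List.drop_succ_cons, ih]
private theorem rqfTakeSub (A B : List ℝ) (k : ℕ) :
    (vSub (OR τ σ) A B).take k = vSub (OR τ σ) (A.take k) (B.take k) := by
  induction k generalizing A B with
  | zero => simp [rqfSub0]
  | succ k ih =>
    cases A with
    | nil => simp [rqfSub0]
    | cons a A =>
      cases B with
      | nil => simp [rqfSub2]
      | cons b B => rw [rqfSub1, List.take_succ_cons, List.take_succ_cons, List.take_succ_cons, rqfSub1, ih]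
private theorem rqfDropSub (A B : List ℝ) (k : ℕ) :
    (vSub (OR τ σ) A B).drop k = vSub (OR τ σ) (A.drop k) (B.drop k) := by
  induction k generalizing A B with
  | zero => simp
  | succ k ih =>
    cases A with
    | nil => simp [rqfSub0]
    | cons a A =>
      cases B with
      | nil => simp [rqfSub2]
      | cons b B => rw [rqfSub1, List.drop_succ_cons, List.drop_succ_cons, List.drop_succ_cons, ih]
private theorem rqfTakeSm (c : ℝ) (A : List ℝ) (k : ℕ) :
    (vSm (OR τ σ) c A).take k = vSm (OR τ σ) c (A.take k) := by
  induction k generalizing A with
  | zero => simp [rqfSm0]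
  | succ k ih =>
    cases A with
    | nil => simp [rqfSm0]
    | cons a A => rw [rqfSm1, List.take_succ_cons, List.take_succ_cons, rqfSm1, ih]
private theorem rqfDropSm (c : ℝ) (A : List ℝ) (k : ℕ) :
    (vSm (OR τ σ) c A).drop k = vSm (OR τ σ) c (A.drop k) := by
  induction k generalizing A with
  | zero => simp
  | succ k ih =>
    cases A with
    | nil => simp [rqfSm0]
    | cons a A => rw [rqfSm1, List.drop_succ_cons, List.drop_succ_cons, ih]
private theorem rqfLT {A B : List ℝ} (h : A.length = B.length) (k : ℕ) : (A.take k).length = (B.take k).length := by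
  rw [List.length_take, List.length_take, h]
private theorem rqfLD {A B : List ℝ} (h : A.length = B.length) (k : ℕ) : (A.drop k).length = (B.drop k).length := by
  rw [List.length_drop, List.length_drop, h]
private theorem rqfDotSub {A B : List ℝ} (h : A.length = B.length) (s : List ℝ) :
    dotL (vSub (OR τ σ) A B) s = dotL A s - dotL B s := by
  induction A generalizing B s with
  | nil =>
    cases B with
    | nil => simp [rqfSub0, dotL]
    | cons b B => simp at h
  | cons a A ih =>
    cases B with
    | nil => simp at h
    | cons b B =>
      have h1 : A.length = B.length := by simpa using h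
      rw [rqfSub1]
      cases s with
      | nil => simp [dotL]
      | cons x s =>
        simp only [dotL]
        rw [ih h1]
        ring

private def rqfRow (l m : ℝ) : List ℝ → List ℝ → List ℝ
  | a :: A, b :: B => (l * b + m * a) :: rqfRow l m A B
  | _, _ => []
private theorem rqfRowK (l m : ℝ) (t : List ℝ) {A B : List ℝ} (h : A.length = B.length) :
    rowK (OR τ σ) l m t A B = rqfRow l m A B ++ t := by
  induction A generalizing B with
  | nil =>
    cases B with
    | nil => rfl
    | cons b B => simp at h
  | cons a A ih =>
    cases B with
    | nil => simp at h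
    | cons b B =>
      have h1 : A.length = B.length := by simpa using h
      rw [rqfRow, List.cons_append, ← ih h1]
      rfl
private theorem rqfRowLen (l m : ℝ) {A B : List ℝ} (h : A.length = B.length) :
    (rqfRow l m A B).length = A.length := by
  induction A generalizing B with
  | nil => rfl
  | cons a A ih =>
    cases B with
    | nil => simp at h
    | cons b B =>
      have h1 : A.length = B.length := by simpa using h
      rw [rqfRow, List.length_cons, List.length_cons, ih h1]
private theorem rqfRowDot (l m : ℝ) {A B : List ℝ} (h : A.length = B.length) (s : List ℝ) :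
    dotL (rqfRow l m A B) s = l * dotL B s + m * dotL A s := by
  induction A generalizing B s with
  | nil =>
    cases B with
    | nil => simp [rqfRow, dotL]
    | cons b B => simp at h
  | cons a A ih =>
    cases B with
    | nil => simp at h
    | cons b B =>
      have h1 : A.length = B.length := by simpa using h
      rw [rqfRow]
      cases s with
      | nil => simp [dotL]
      | cons x s =>
        simp only [dotL]
        rw [ih h1]
        ring

theorem dotL_vAdd {A B : List ℝ} (h : A.length = B.length) (s : List ℝ) :
    dotL (vAdd (OR τ σ) A B) s = dotL A s + dotL B s := by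
  induction A generalizing B s with
  | nil =>
    cases B with
    | nil => simp [rqfAdd0, dotL]
    | cons b B => simp at h
  | cons a A ih =>
    cases B with
    | nil => simp at h
    | cons b B =>
      have h1 : A.length = B.length := by simpa using h
      rw [rqfAdd1]
      cases s with
      | nil => simp [dotL]
      | cons x s =>
        simp only [dotL]
        rw [ih h1]
        show (a + b) * x + _ = _
        ring
theorem dotL_vSm (c : ℝ) (A s : List ℝ) : dotL (vSm (OR τ σ) c A) s = c * dotL A s := by
  induction A generalizing s with
  | nil => simp [rqfSm0, dotL]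
  | cons a A ih =>
    rw [rqfSm1]
    cases s with
    | nil => simp [dotL]
    | cons x s =>
      simp only [dotL]
      rw [ih]
      show (c * a) * x + _ = _
      ring
theorem dotL_zero (k : ℕ) (s : List ℝ) : dotL (List.replicate k ((OR τ σ).nat 0)) s = 0 := by
  induction k generalizing s with
  | zero => rfl
  | succ k ih =>
    rw [List.replicate_succ]
    cases s with
    | nil => rfl
    | cons x s =>
      simp only [dotL]
      rw [ih]
      show ((0 : ℕ) : ℝ) * x + 0 = 0
      simp
theorem qf_vAdd {A B : List ℝ} (h : A.length = B.length) (s : List ℝ) :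
    qf (vAdd (OR τ σ) A B) s = qf A s + qf B s := by
  induction s generalizing A B with
  | nil => simp [qf]
  | cons x s ih =>
    simp only [qf]
    rw [rqfTakeAdd, rqfDropAdd, dotL_vAdd τ σ (rqfLT h _), ih (rqfLD h _)]
    ring
theorem qf_vSub {A B : List ℝ} (h : A.length = B.length) (s : List ℝ) :
    qf (vSub (OR τ σ) A B) s = qf A s - qf B s := by
  induction s generalizing A B with
  | nil => simp [qf]
  | cons x s ih =>
    simp only [qf]
    rw [rqfTakeSub, rqfDropSub, rqfDotSub τ σ (rqfLT h _), ih (rqfLD h _)]
    ring
theorem qf_vSm (c : ℝ) (A s : List ℝ) : qf (vSm (OR τ σ) c A) s = c * qf A s := by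
  induction s generalizing A with
  | nil => simp [qf]
  | cons x s ih =>
    simp only [qf]
    rw [rqfTakeSm, rqfDropSm, dotL_vSm, ih]
    ring
theorem qf_zero (k : ℕ) (s : List ℝ) : qf (List.replicate k ((OR τ σ).nat 0)) s = 0 := by
  induction s generalizing k with
  | nil => simp [qf]
  | cons x s ih =>
    simp only [qf]
    rw [List.take_replicate, List.drop_replicate, dotL_zero, ih]
    ring
theorem qf_vMul {A B s : List ℝ} (hA : A.length = s.length) (hB : B.length = s.length) :
    qf (vMul (OR τ σ) A B) s = dotL A s * dotL B s := by
  induction s generalizing A B with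
  | nil => simp [qf, List.length_eq_zero_iff.mp hA, dotL]
  | cons x s ih =>
    cases A with
    | nil => simp at hA
    | cons l L =>
      cases B with
      | nil => simp at hB
      | cons m M =>
        have h1 : L.length = s.length := by simpa using hA
        have h2 : M.length = s.length := by simpa using hB
        have e1 : vMul (OR τ σ) (l :: L) (m :: M) =
            (l * m :: rqfRow l m L M) ++ vMul (OR τ σ) L M := by
          show l * m :: rowK (OR τ σ) l m (vMul (OR τ σ) L M) L M = _
          rw [rqfRowK τ σ l m _ (h1.trans h2.symm)]
          rfl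
        have e2 : (l * m :: rqfRow l m L M).length = s.length + 1 := by
          rw [List.length_cons, rqfRowLen l m (h1.trans h2.symm), h1]
        rw [e1]
        simp only [qf]
        rw [← e2, List.take_left, List.drop_left, ih h1 h2]
        simp only [dotL]
        rw [rqfRowDot l m (h1.trans h2.symm)]
        ring

end Pool.Agent.PKD
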