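import Pool.Agent.PKD.PSU
import Pool.Agent.PKD.RDG
import Pool.Agent.PKD.RC2
/-!
PSM. Soundness of the tests of a packed matrix and of a packed scalar.
-/
set_option autoImplicit false

open Pool.Agent.MSQ

namespace Pool.Agent.PKD

private lemma PSM_rows (n : ℕ) : ∀ l : List ℕ, l.length = n * (n + 1) / 2 →
    isTN n (rowsM n l) ∧ (rowsM n l).flatten = l := by
  induction n with
  | zero =>
    intro l hl
    have h0 : l = [] := List.length_eq_zero_iff.1 (by simpa using hl)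
    subst h0
    exact ⟨rfl, rfl⟩
  | succ n ih =>
    intro l hl
    have h1 : (n + 1) * (n + 1 + 1) / 2 = n * (n + 1) / 2 + (n + 1) := by
      have h2 : (n + 1) * (n + 1 + 1) = n * (n + 1) + (n + 1) * 2 := by ring
      rw [h2, Nat.add_mul_div_right _ _ (by norm_num)]
    rw [h1] at hl
    have h3 := ih (l.drop (n + 1)) (by rw [List.length_drop, hl]; omega)
    have h4 : rowsM (n + 1) l = l.take (n + 1) :: rowsM n (l.drop (n + 1)) := rfl
    rw [h4]
    refine ⟨⟨_, _, rfl, ?_, h3.1⟩, ?_⟩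
    · rw [List.length_take, hl]
      omega
    · rw [List.flatten_cons, h3.2, List.take_append_drop]

private lemma PSM_shift (off N : ℕ) (l : List ℕ) : shiftL off N l = l.map fun v => (v + off) % N := by
  induction l with
  | nil => rfl
  | cons a l ih =>
    have h1 : shiftL off N (a :: l) = (a + off) % N :: shiftL off N l := rfl
    rw [h1, ih]
    rfl

private lemma PSM_linD {ι : Type} (S : Finset ℕ) (c : ℕ → ℝ) (F : ℕ → ι → ℝ) : ∀ (l : List ι) (s : List ℝ),
    dotL (l.map fun x => ∑ k ∈ S, c k * F k x) s = ∑ k ∈ S, c k * dotL (l.map (F k)) s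
  | [], s => by simp [dotL]
  | _ :: _, [] => by simp [dotL]
  | x :: l, y :: s => by
    simp only [List.map_cons, dotL]
    rw [PSM_linD S c F l s, Finset.sum_mul, ← Finset.sum_add_distrib]
    apply Finset.sum_congr rfl
    intro k _
    ring

private lemma PSM_linQ {ι : Type} (S : Finset ℕ) (c : ℕ → ℝ) (F : ℕ → ι → ℝ) : ∀ (s : List ℝ) (l : List ι),
    qf (l.map fun x => ∑ k ∈ S, c k * F k x) s = ∑ k ∈ S, c k * qf (l.map (F k)) s
  | [], l => by simp [qf]
  | y :: s, l => by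
    simp only [qf, ← List.map_take, ← List.map_drop]
    rw [PSM_linQ S c F s, PSM_linD, Finset.mul_sum, ← Finset.sum_add_distrib]
    apply Finset.sum_congr rfl
    intro k _
    ring

theorem mchk_sound {C : Cx} {n d rd H zb : ℕ} {Z : List ℕ} {F : List ℝ} (hF : C2 C d (rd * H) Z F)
    (hl : Z.length = n * (n + 1) / 2) (hY : C.Y = 2 * (rd * H) + 1) (hX : C.X = C.Y ^ (d + 1))
    (hN : C.N = C.Y ^ ((d + 1) * (d + 1))) (hτ : 0 ≤ C.τ) (hσ : 0 ≤ C.σ)
    (hm : mchk n C.Y rd H zb ((d + 1) * (d + 1)) Z = true) (s : List ℝ) (hs : s.length = n) : 0 ≤ qf F s := by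
  have hm' : psT n C.Y rd H zb ((d + 1) * (d + 1))
      (rowsM n (shiftL ((rd * H) * (reps C.Y ((d + 1) * (d + 1)))) (C.Y ^ ((d + 1) * (d + 1))) Z)) = true := hm
  rw [← hN, PSM_shift] at hm'
  have hr := PSM_rows n (Z.map fun v => (v + (rd * H) * (reps C.Y ((d + 1) * (d + 1)))) % C.N)
    (by rw [List.length_map, hl])
  have hFZ : F = (Z.map fun v => (v + (rd * H) * (reps C.Y ((d + 1) * (d + 1)))) % C.N).map
      fun v => ∑ k ∈ Finset.range ((d + 1) * (d + 1)), (C.τ ^ (k / (d + 1)) * C.σ ^ (k % (d + 1))) *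
        (((v / C.Y ^ k % C.Y : ℕ) : ℝ) - rd * H) := by
    clear hl hm hm' hr
    have hF' : List.Forall₂ (fun a r => R3 C d d a r (rd * H)) Z F := hF
    clear hF
    induction hF' with
    | nil => rfl
    | @cons a r Z F h1 _ ih =>
      rw [List.map_cons, List.map_cons, ← ih]
      congr 1
      obtain ⟨cf, _, hcf, hrr⟩ := h1.digits le_rfl hY.ge hX hN
      rw [hrr]
      apply Finset.sum_congr rfl
      intro k hk
      have h2 := hcf k (Finset.mem_range.1 hk)
      have h3 : (((a + rd * H * reps C.Y ((d + 1) * (d + 1))) % C.N / C.Y ^ k % C.Y : ℕ) : ℝ) = (cf k : ℝ) + rd * H := by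
        have h4 : (((((a + rd * H * reps C.Y ((d + 1) * (d + 1))) % C.N / C.Y ^ k % C.Y : ℕ) : ℤ)) : ℝ) =
          ((cf k + ((rd * H : ℕ) : ℤ) : ℤ) : ℝ) := by rw [h2]
        push_cast at h4 ⊢
        exact h4
      rw [h3]
      ring
  rw [hFZ, PSM_linQ (Finset.range ((d + 1) * (d + 1))) (fun k => C.τ ^ (k / (d + 1)) * C.σ ^ (k % (d + 1)))
    (fun k (v : ℕ) => ((v / C.Y ^ k % C.Y : ℕ) : ℝ) - rd * H)]
  apply Finset.sum_nonneg
  intro k hk
  refine mul_nonneg (by positivity) ?_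
  have h5 := psT_sound n C.Y rd H zb ((d + 1) * (d + 1)) _ hr.1 hm' k (Finset.mem_range.1 hk) s hs
  rw [hr.2] at h5
  exact h5

private lemma PSM_geA (Y h : ℕ) : ∀ (k v : ℕ), geA Y h k v = true → ∀ j < k, h ≤ v / Y ^ j % Y := by
  intro k
  induction k with
  | zero =>
    intro v _ j hj
    exact absurd hj (Nat.not_lt_zero j)
  | succ k ih =>
    intro v hv j hj
    rw [geA] at hv
    cases hb : Nat.ble h (Nat.mod v Y) with
    | false =>
      rw [hb] at hv
      exact absurd hv (by simp)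
    | true =>
      rw [hb] at hv
      cases j with
      | zero =>
        rw [pow_zero, Nat.div_one]
        exact Nat.le_of_ble_eq_true hb
      | succ j =>
        have h1 := ih (v / Y) hv j (by omega)
        rw [Nat.div_div_eq_div_mul] at h1
        rw [pow_succ, mul_comm]
        exact h1

theorem nnchk_sound {C : Cx} {d a c h : ℕ} {r : ℝ} (hr : R3 C d d a r c) (hc : c ≤ h) (hY : C.Y = 2 * h + 1)
    (hX : C.X = C.Y ^ (d + 1)) (hN : C.N = C.Y ^ ((d + 1) * (d + 1))) (hτ : 0 ≤ C.τ) (hσ : 0 ≤ C.σ)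
    (hm : nnchk C.Y h ((d + 1) * (d + 1)) a = true) : 0 ≤ r := by
  have hm' : geA C.Y h ((d + 1) * (d + 1)) ((a + h * reps C.Y ((d + 1) * (d + 1))) % C.Y ^ ((d + 1) * (d + 1))) = true :=
    hm
  rw [← hN] at hm'
  obtain ⟨cf, _, hcf, hrr⟩ := hr.digits hc hY.ge hX hN
  rw [hrr]
  apply Finset.sum_nonneg
  intro k hk
  have h1 := PSM_geA C.Y h _ _ hm' k (Finset.mem_range.1 hk)
  have h2 := hcf k (Finset.mem_range.1 hk)
  have h3 : ((h : ℕ) : ℤ) ≤ (((a + h * reps C.Y ((d + 1) * (d + 1))) % C.N / C.Y ^ k % C.Y : ℕ) : ℤ) := by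
    exact_mod_cast h1
  rw [h2] at h3
  have h4 : (0 : ℤ) ≤ cf k := by linarith
  have h5 : (0 : ℝ) ≤ cf k := by exact_mod_cast h4
  positivity

end Pool.Agent.PKD
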