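import Pool.Agent.PKD.PSU
/-!
PSV. Multipliers with coefficient lists of digits.
-/
set_option autoImplicit false

open Pool.Agent.MSQ

namespace Pool.Agent.PKD

private lemma PSV_pw (τ σ : ℝ) (n : ℕ) : pw (OR τ σ) ((OR τ σ).nat 1) n = 1 := by
  induction n with
  | zero => show ((1 : ℕ) : ℝ) = 1; simp
  | succ n ih =>
    show ((1 : ℕ) : ℝ) * pw (OR τ σ) ((OR τ σ).nat 1) n = 1
    rw [ih]
    simp

private lemma PSV_mkV (τ σ a : ℝ) (n : ℕ) :
    mkV (OR τ σ) a ((OR τ σ).nat 1) n = (List.range (n + 1)).map (fun i => a ^ i) := by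
  induction n with
  | zero =>
    show [((1 : ℕ) : ℝ)] = _
    simp
  | succ n ih =>
    have h1 : mkV (OR τ σ) a ((OR τ σ).nat 1) (n + 1) =
        pw (OR τ σ) ((OR τ σ).nat 1) (n + 1) :: (mkV (OR τ σ) a ((OR τ σ).nat 1) n).map (fun x => a * x) := rfl
    rw [h1, ih, PSV_pw, List.range_succ_eq_map (n := n + 1)]
    simp only [List.map_cons, List.map_map, pow_zero]
    congr 1
    apply List.map_congr_left
    intro i _
    show a * a ^ i = a ^ (i + 1)
    ring

private lemma PSV_dgt (τ σ : ℝ) (K m : ℕ) : ∀ (f : ℕ → ℝ) (N : ℕ),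
    dgt (OR τ σ) K ((List.range m).map f) N = ∑ j ∈ Finset.range m, ((N / K ^ j % K : ℕ) : ℝ) * f j := by
  induction m with
  | zero =>
    intro f N
    simp only [List.range_zero, List.map_nil, Finset.range_zero, Finset.sum_empty]
    show ((0 : ℕ) : ℝ) = 0
    simp
  | succ m ih =>
    intro f N
    rw [List.range_succ_eq_map, List.map_cons, List.map_map, Finset.sum_range_succ']
    have h1 : dgt (OR τ σ) K (f 0 :: (List.range m).map (f ∘ Nat.succ)) N =
        ((N % K : ℕ) : ℝ) * f 0 + dgt (OR τ σ) K ((List.range m).map (f ∘ Nat.succ)) (N / K) := rfl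
    rw [h1, ih]
    simp only [pow_zero, Nat.div_one, Function.comp_apply, Nat.succ_eq_add_one]
    rw [add_comm]
    congr 1
    apply Finset.sum_congr rfl
    intro j _
    rw [Nat.div_div_eq_div_mul, pow_succ, mul_comm K (K ^ j)]

private lemma PSV_dgr (τ σ : ℝ) (K L m : ℕ) (v : List ℝ) : ∀ (f : ℕ → ℝ) (N : ℕ),
    dgr (OR τ σ) K L (tens ((List.range m).map f) v) N =
      ∑ i ∈ Finset.range m, f i * dgt (OR τ σ) K v (N / L ^ i % L) := by
  induction m with
  | zero =>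
    intro f N
    simp only [List.range_zero, List.map_nil, Finset.range_zero, Finset.sum_empty]
    show ((0 : ℕ) : ℝ) = 0
    simp
  | succ m ih =>
    intro f N
    rw [List.range_succ_eq_map, List.map_cons, List.map_map, Finset.sum_range_succ']
    have h1 : dgr (OR τ σ) K L (tens (f 0 :: (List.range m).map (f ∘ Nat.succ)) v) N =
        f 0 * dgt (OR τ σ) K v (N % L) + dgr (OR τ σ) K L (tens ((List.range m).map (f ∘ Nat.succ)) v) (N / L) := rfl
    rw [h1, ih]
    simp only [pow_zero, Nat.div_one, Function.comp_apply, Nat.succ_eq_add_one]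
    rw [add_comm]
    congr 1
    apply Finset.sum_congr rfl
    intro j _
    rw [Nat.div_div_eq_div_mul, pow_succ, mul_comm L (L ^ j)]

private lemma PSV_sm (τ σ : ℝ) (m : ℕ) : ∀ (f : ℕ → ℝ),
    sm (OR τ σ) ((List.range m).map f) = ∑ j ∈ Finset.range m, f j := by
  induction m with
  | zero =>
    intro f
    simp only [List.range_zero, List.map_nil, Finset.range_zero, Finset.sum_empty]
    show ((0 : ℕ) : ℝ) = 0
    simp
  | succ m ih =>
    intro f
    rw [List.range_succ_eq_map, List.map_cons, List.map_map, Finset.sum_range_succ']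
    have h1 : sm (OR τ σ) (f 0 :: (List.range m).map (f ∘ Nat.succ)) =
        f 0 + sm (OR τ σ) ((List.range m).map (f ∘ Nat.succ)) := rfl
    rw [h1, ih, add_comm]
    rfl

private lemma PSV_sgr (τ σ : ℝ) (m : ℕ) (v : List ℝ) : ∀ (f : ℕ → ℝ),
    sgr (OR τ σ) (tens ((List.range m).map f) v) = ∑ i ∈ Finset.range m, f i * sm (OR τ σ) v := by
  induction m with
  | zero =>
    intro f
    simp only [List.range_zero, List.map_nil, Finset.range_zero, Finset.sum_empty]
    show ((0 : ℕ) : ℝ) = 0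
    simp
  | succ m ih =>
    intro f
    rw [List.range_succ_eq_map, List.map_cons, List.map_map, Finset.sum_range_succ']
    have h1 : sgr (OR τ σ) (tens (f 0 :: (List.range m).map (f ∘ Nat.succ)) v) =
        f 0 * sm (OR τ σ) v + sgr (OR τ σ) (tens ((List.range m).map (f ∘ Nat.succ)) v) := rfl
    rw [h1, ih, add_comm]
    rfl

private lemma PSV_dig (K d i j N : ℕ) (hj : j < d + 1) :
    N / (K ^ (d + 1)) ^ i % K ^ (d + 1) / K ^ j % K = N / K ^ ((d + 1) * i + j) % K := by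
  have h1 : K ^ (d + 1) = K ^ j * K ^ (d + 1 - j) := by
    rw [← pow_add]
    congr 1
    omega
  rw [← pow_mul, pow_add K ((d + 1) * i) j, ← Nat.div_div_eq_div_mul]
  generalize N / K ^ ((d + 1) * i) = A
  rw [h1, Nat.mod_mul_right_div_self, Nat.mod_mod_of_dvd]
  exact dvd_pow_self K (by omega)

private lemma PSV_sum (n : ℕ) (F : ℕ → ℝ) : ∀ m : ℕ,
    ∑ k ∈ Finset.range (m * n), F k = ∑ i ∈ Finset.range m, ∑ j ∈ Finset.range n, F (n * i + j) := by
  intro m
  induction m with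
  | zero => simp
  | succ m ih =>
    rw [Nat.succ_mul, Finset.sum_range_add, ih, Finset.sum_range_succ, mul_comm m n]

theorem pvo_val (τ σ : ℝ) (K d h N : ℕ) (hK : 1 ≤ K) :
    pvo (OR τ σ) K (K ^ (d + 1)) h (tens (mkV (OR τ σ) τ ((OR τ σ).nat 1) d) (mkV (OR τ σ) σ ((OR τ σ).nat 1) d)) N =
      ∑ k ∈ Finset.range ((d + 1) * (d + 1)), (((N / K ^ k % K : ℕ) : ℝ) - h) * (τ ^ (k / (d + 1)) * σ ^ (k % (d + 1))) := by
  rw [PSV_mkV, PSV_mkV]
  have h1 : ∀ u : List (ℝ × List ℝ), pvo (OR τ σ) K (K ^ (d + 1)) h u N =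
      dgr (OR τ σ) K (K ^ (d + 1)) u N - (h : ℝ) * sgr (OR τ σ) u := fun u => rfl
  rw [h1, PSV_dgr, PSV_sgr, PSV_sum, Finset.mul_sum, ← Finset.sum_sub_distrib]
  apply Finset.sum_congr rfl
  intro i _
  rw [PSV_dgt, PSV_sm, Finset.mul_sum, Finset.mul_sum, Finset.mul_sum, ← Finset.sum_sub_distrib]
  apply Finset.sum_congr rfl
  intro j hj
  have hj' : j < d + 1 := Finset.mem_range.1 hj
  rw [PSV_dig K d i j N hj']
  have h2 : ((d + 1) * i + j) / (d + 1) = i := by
    rw [Nat.mul_add_div (Nat.succ_pos d), Nat.div_eq_of_lt hj', add_zero]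
  have h3 : ((d + 1) * i + j) % (d + 1) = j := by
    rw [Nat.mul_add_mod, Nat.mod_eq_of_lt hj']
  rw [h2, h3]
  ring

theorem pvo_nonneg {τ σ : ℝ} (hτ : 0 ≤ τ) (hσ : 0 ≤ σ) (K d N : ℕ) (hK : 1 ≤ K) :
    0 ≤ pvo (OR τ σ) K (K ^ (d + 1)) 0 (tens (mkV (OR τ σ) τ ((OR τ σ).nat 1) d) (mkV (OR τ σ) σ ((OR τ σ).nat 1) d)) N := by
  rw [pvo_val τ σ K d 0 N hK]
  apply Finset.sum_nonneg
  intro k _
  rw [Nat.cast_zero, sub_zero]
  positivity

private lemma PSV_linD {ι : Type} (S : Finset ℕ) (c : ℕ → ℝ) (F : ℕ → ι → ℝ) : ∀ (l : List ι) (s : List ℝ),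
    dotL (l.map fun x => ∑ k ∈ S, c k * F k x) s = ∑ k ∈ S, c k * dotL (l.map (F k)) s
  | [], s => by simp [dotL]
  | _ :: _, [] => by simp [dotL]
  | x :: l, y :: s => by
    simp only [List.map_cons, dotL]
    rw [PSV_linD S c F l s, Finset.sum_mul, ← Finset.sum_add_distrib]
    apply Finset.sum_congr rfl
    intro k _
    ring

private lemma PSV_linQ {ι : Type} (S : Finset ℕ) (c : ℕ → ℝ) (F : ℕ → ι → ℝ) : ∀ (s : List ℝ) (l : List ι),
    qf (l.map fun x => ∑ k ∈ S, c k * F k x) s = ∑ k ∈ S, c k * qf (l.map (F k)) s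
  | [], l => by simp [qf]
  | y :: s, l => by
    simp only [qf, ← List.map_take, ← List.map_drop]
    rw [PSV_linQ S c F s, PSV_linD, Finset.mul_sum, ← Finset.sum_add_distrib]
    apply Finset.sum_congr rfl
    intro k _
    ring

theorem psT_pvo {τ σ : ℝ} (hτ : 0 ≤ τ) (hσ : 0 ≤ σ) (n K d h zb : ℕ) (hK : 1 ≤ K) (M : List (List ℕ)) (hM : isTN n M)
    (hp : psT n K 1 h zb ((d + 1) * (d + 1)) M = true) (s : List ℝ) (hs : s.length = n) :
    0 ≤ qf (M.flatten.map fun N => pvo (OR τ σ) K (K ^ (d + 1)) h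
      (tens (mkV (OR τ σ) τ ((OR τ σ).nat 1) d) (mkV (OR τ σ) σ ((OR τ σ).nat 1) d)) N) s := by
  have h1 : (M.flatten.map fun N => pvo (OR τ σ) K (K ^ (d + 1)) h
      (tens (mkV (OR τ σ) τ ((OR τ σ).nat 1) d) (mkV (OR τ σ) σ ((OR τ σ).nat 1) d)) N) =
      M.flatten.map fun N => ∑ k ∈ Finset.range ((d + 1) * (d + 1)),
        (τ ^ (k / (d + 1)) * σ ^ (k % (d + 1))) * (((N / K ^ k % K : ℕ) : ℝ) - ((1 : ℕ) : ℝ) * h) := by
    apply List.map_congr_left
    intro N _
    rw [pvo_val τ σ K d h N hK]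
    apply Finset.sum_congr rfl
    intro k _
    rw [Nat.cast_one, one_mul, mul_comm]
  rw [h1, PSV_linQ (Finset.range ((d + 1) * (d + 1))) (fun k => τ ^ (k / (d + 1)) * σ ^ (k % (d + 1)))
    (fun k (N : ℕ) => ((N / K ^ k % K : ℕ) : ℝ) - ((1 : ℕ) : ℝ) * h)]
  apply Finset.sum_nonneg
  intro k hk
  refine mul_nonneg (by positivity) ?_
  exact psT_sound n K 1 h zb ((d + 1) * (d + 1)) M hM hp k (Finset.mem_range.1 hk) s hs

end Pool.Agent.PKD
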