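import Pool.Agent.PKD.Defs
/-!
PST. Soundness of the elimination.
-/
set_option autoImplicit false

open Pool.Agent.MSQ

namespace Pool.Agent.PKD

private lemma PST_fm (r : List ℤ) : List.flatMap (fun a : ℤ => [(a : ℝ)]) r = List.map Int.cast r := by
  induction r with
  | nil => rfl
  | cons a r ih => rw [List.flatMap_cons, ih]; rfl

private lemma PST_qrc (a : ℤ) (r : List ℤ) (M : List (List ℤ)) (x : ℝ) (v : List ℝ) :
    qr ((a :: r) :: M) (x :: v) = a * x ^ 2 + 2 * x * dotL (r.map (Int.cast : ℤ → ℝ)) v + qr M v := by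
  rw [qr.eq_1]
  congr 4
  simp [PST_fm]

private lemma PST_le_bnd (n B : ℕ) : B ≤ bnd n B := by
  induction n generalizing B with
  | zero => exact le_refl _
  | succ n ih =>
    cases n with
    | zero => exact le_refl _
    | succ n =>
      have h1 : bnd (n + 1 + 1) B = bnd (n + 1) (2 * (B * B)) := rfl
      rw [h1]
      refine le_trans ?_ (ih _)
      have := Nat.le_mul_self B
      omega

private lemma PST_offL (Z h n : ℕ) (hZ : 2 * h + 1 ≤ Z) : 2 * offL Z h n + 1 ≤ Z ^ n := by
  induction n with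
  | zero => simp [offL]
  | succ n ih =>
    have h1 : offL Z h (n + 1) = h + Z * offL Z h n := rfl
    rw [h1, pow_succ]
    have h2 := Nat.mul_le_mul_right Z ih
    nlinarith

private lemma PST_offL_succ (Z h n : ℕ) : ((offL Z h (n + 1) : ℕ) : ℤ) = h + Z * (offL Z h n : ℕ) := by
  have : offL Z h (n + 1) = h + Z * offL Z h n := rfl
  rw [this]
  push_cast
  ring

private lemma PST_rowV (Z h : ℕ) (r : List ℤ) (hr : ∀ a ∈ r, |a| ≤ (h : ℤ)) :
    |rowV Z r| ≤ ((offL Z h r.length : ℕ) : ℤ) := by
  induction r with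
  | nil => simp [rowV, offL]
  | cons a r ih =>
    have h2 : rowV Z (a :: r) = a + Z * rowV Z r := rfl
    rw [List.length_cons, PST_offL_succ, h2]
    have h3 := ih (fun b hb => hr b (List.mem_cons_of_mem _ hb))
    have h4 := hr a (List.mem_cons_self)
    calc |a + (Z : ℤ) * rowV Z r| ≤ |a| + |(Z : ℤ) * rowV Z r| := abs_add_le _ _
      _ = |a| + Z * |rowV Z r| := by rw [abs_mul, Nat.abs_cast]
      _ ≤ h + Z * ((offL Z h r.length : ℕ) : ℤ) := by
        have h5 : (0 : ℤ) ≤ Z := Int.natCast_nonneg Z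
        have h6 := mul_le_mul_of_nonneg_left h3 h5
        linarith

private lemma PST_T (Z h N : ℕ) (hZ : 2 * h + 1 ≤ Z) (r : List ℤ) (hr : ∀ a ∈ r, |a| ≤ (h : ℤ))
    (hN : Z ^ r.length ≤ N) (R : ℕ) (hR : (R : ℤ) ≡ rowV Z r [ZMOD N]) :
    (((R + offL Z h r.length) % N : ℕ) : ℤ) = rowV Z r + (offL Z h r.length : ℕ) := by
  have h1 := PST_rowV Z h r hr
  have h2 := PST_offL Z h r.length hZ
  have h3 : ((2 * offL Z h r.length + 1 : ℕ) : ℤ) ≤ N := by exact_mod_cast h2.trans hN
  have h4 := abs_le.1 h1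
  push_cast at h3 ⊢
  have h5 : ((R : ℤ) + (offL Z h r.length : ℕ)) % N = (rowV Z r + (offL Z h r.length : ℕ)) % N :=
    hR.add_right _
  rw [h5]
  exact Int.emod_eq_of_lt (by linarith [h4.1]) (by linarith [h4.2])

private lemma PST_dig (Z T : ℕ) (a U : ℤ) (h0 : 0 ≤ a) (h1 : a < Z) (hT : (T : ℤ) = a + Z * U) :
    ((T % Z : ℕ) : ℤ) = a ∧ ((T / Z : ℕ) : ℤ) = U := by
  have hZ : (Z : ℤ) ≠ 0 := by
    intro h
    rw [h] at h1
    linarith
  constructor
  · rw [Int.natCast_mod, hT, Int.add_mul_emod_self_left]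
    exact Int.emod_eq_of_lt h0 h1
  · rw [Int.natCast_div, hT, Int.add_mul_ediv_left _ _ hZ, Int.ediv_eq_zero_of_lt h0 h1, zero_add]

private def PST_new (a : ℤ) : List ℤ → List (List ℤ) → List (List ℤ)
  | r :: t, m :: M => (List.zipWith (fun x y => a * x - r * y) m (r :: t)) :: PST_new a t M
  | _, _ => []

private lemma PST_zipV (Z a r : ℤ) : ∀ (m l : List ℤ), m.length = l.length →
    rowV Z (List.zipWith (fun x y => a * x - r * y) m l) = a * rowV Z m - r * rowV Z l
  | [], [], _ => by simp [rowV]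
  | [], _ :: _, h => by simp at h
  | _ :: _, [], h => by simp at h
  | x :: m, y :: l, h => by
    have ih := PST_zipV Z a r m l (by simpa using h)
    rw [List.zipWith_cons_cons]
    simp only [rowV]
    rw [ih]
    ring

private lemma PST_zipD (a r : ℤ) : ∀ (m l : List ℤ) (v : List ℝ), m.length = l.length → v.length = l.length →
    dotL ((List.zipWith (fun x y => a * x - r * y) m l).map (Int.cast : ℤ → ℝ)) v =
      a * dotL (m.map (Int.cast : ℤ → ℝ)) v - r * dotL (l.map (Int.cast : ℤ → ℝ)) v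
  | [], [], v, _, _ => by simp [dotL]
  | [], _ :: _, _, h, _ => by simp at h
  | _ :: _, [], _, h, _ => by simp at h
  | _ :: _, _ :: _, [], _, h => by simp at h
  | x :: m, y :: l, s :: v, h, h' => by
    have ih := PST_zipD a r m l v (by simpa using h) (by simpa using h')
    rw [List.zipWith_cons_cons]
    simp only [dotL, List.map_cons]
    rw [ih]
    push_cast
    ring

private lemma PST_zipB (a r : ℤ) (B : ℕ) (ha : |a| ≤ B) (hr : |r| ≤ B) : ∀ (m l : List ℤ),
    (∀ x ∈ m, |x| ≤ (B : ℤ)) → (∀ x ∈ l, |x| ≤ (B : ℤ)) →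
    ∀ z ∈ List.zipWith (fun x y => a * x - r * y) m l, |z| ≤ ((2 * (B * B) : ℕ) : ℤ)
  | [], _, _, _, z, hz => by simp at hz
  | _ :: _, [], _, _, z, hz => by simp at hz
  | x :: m, y :: l, h, h', z, hz => by
    rw [List.zipWith_cons_cons, List.mem_cons] at hz
    rcases hz with rfl | hz
    · have h1 := h x List.mem_cons_self
      have h2 := h' y List.mem_cons_self
      have hB : (0 : ℤ) ≤ B := Int.natCast_nonneg B
      calc |a * x - r * y| ≤ |a * x| + |r * y| := abs_sub _ _
        _ = |a| * |x| + |r| * |y| := by rw [abs_mul, abs_mul]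
        _ ≤ B * B + B * B := add_le_add (mul_le_mul ha h1 (abs_nonneg _) hB) (mul_le_mul hr h2 (abs_nonneg _) hB)
        _ = ((2 * (B * B) : ℕ) : ℤ) := by push_cast; ring
    · exact PST_zipB a r B ha hr m l (fun x hx => h x (List.mem_cons_of_mem _ hx))
        (fun x hx => h' x (List.mem_cons_of_mem _ hx)) z hz

private lemma PST_isT (a : ℤ) (r : List ℤ) : ∀ (M : List (List ℤ)), isT r.length M →
    isT r.length (PST_new a r M) := by
  induction r with
  | nil =>
    intro M hM
    have hM' : M = [] := hM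
    subst hM'
    exact rfl
  | cons x r ih =>
    intro M hM
    obtain ⟨m, t, rfl, hm, ht⟩ : ∃ m t, M = m :: t ∧ m.length = r.length + 1 ∧ isT r.length t := hM
    refine ⟨List.zipWith (fun u y => a * u - x * y) m (x :: r), PST_new a r t, rfl, ?_, ih t ht⟩
    rw [List.length_zipWith, hm, List.length_cons, min_self]

private lemma PST_bd (a : ℤ) (B : ℕ) (ha : |a| ≤ B) (r : List ℤ) : (∀ x ∈ r, |x| ≤ (B : ℤ)) →
    ∀ (M : List (List ℤ)), (∀ m ∈ M, ∀ x ∈ m, |x| ≤ (B : ℤ)) →
    ∀ m ∈ PST_new a r M, ∀ x ∈ m, |x| ≤ ((2 * (B * B) : ℕ) : ℤ) := by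
  induction r with
  | nil =>
    intro _ M _ m hm
    have h0 : PST_new a [] M = [] := by cases M <;> rfl
    rw [h0] at hm
    simp at hm
  | cons y r ih =>
    intro hr M hM m hm
    cases M with
    | nil =>
      have h0 : PST_new a (y :: r) [] = [] := rfl
      rw [h0] at hm
      simp at hm
    | cons m0 M =>
      have h0 : PST_new a (y :: r) (m0 :: M) =
        (List.zipWith (fun u z => a * u - y * z) m0 (y :: r)) :: PST_new a r M := rfl
      rw [h0, List.mem_cons] at hm
      rcases hm with rfl | hm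
      · exact PST_zipB a y B ha (hr y List.mem_cons_self) m0 (y :: r) (hM m0 List.mem_cons_self) hr
      · exact ih (fun x hx => hr x (List.mem_cons_of_mem _ hx)) M
          (fun m hm => hM m (List.mem_cons_of_mem _ hm)) m hm

private lemma PST_qr (a : ℤ) (r : List ℤ) : ∀ (M : List (List ℤ)), isT r.length M → ∀ (v : List ℝ),
    v.length = r.length →
    qr (PST_new a r M) v = a * qr M v - (dotL (r.map (Int.cast : ℤ → ℝ)) v) ^ 2 := by
  induction r with
  | nil =>
    intro M hM v hv
    have hM' : M = [] := hM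
    subst hM'
    have hv' : v = [] := List.length_eq_zero_iff.1 hv
    subst hv'
    simp [PST_new, qr, dotL]
  | cons x r ih =>
    intro M hM v hv
    obtain ⟨m, t, rfl, hm, ht⟩ : ∃ m t, M = m :: t ∧ m.length = r.length + 1 ∧ isT r.length t := hM
    obtain ⟨y, v, rfl⟩ : ∃ y v', v = y :: v' := by
      cases v with
      | nil => simp at hv
      | cons y v => exact ⟨y, v, rfl⟩
    obtain ⟨m0, m, rfl⟩ : ∃ m0 m', m = m0 :: m' := by
      cases m with
      | nil => simp at hm
      | cons y v => exact ⟨y, v, rfl⟩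
    have hv' : v.length = r.length := by simpa using hv
    have hm' : m.length = r.length := by simpa using hm
    have h0 : PST_new a (x :: r) ((m0 :: m) :: t) =
        ((a * m0 - x * x) :: List.zipWith (fun u z => a * u - x * z) m r) :: PST_new a r t := rfl
    rw [h0, PST_qrc, PST_qrc, ih t ht v hv', PST_zipD a x m r v hm' hv']
    simp only [dotL, List.map_cons]
    push_cast
    ring

private lemma PST_step (Z h N : ℕ) (hZ : 2 * h + 1 ≤ Z) (a : ℕ) (r : List ℤ) :
    (∀ x ∈ r, |x| ≤ (h : ℤ)) → Z ^ r.length ≤ N → ∀ (T : ℕ), (T : ℤ) = rowV Z r + (offL Z h r.length : ℕ) →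
    ∀ (M : List (List ℤ)), isT r.length M → ∀ (Rs : List ℕ),
    List.Forall₂ (fun (R : ℕ) (r : List ℤ) => (R : ℤ) ≡ rowV Z r [ZMOD N]) Rs M →
    List.Forall₂ (fun (R : ℕ) (r : List ℤ) => (R : ℤ) ≡ rowV Z r [ZMOD N])
      (stepR N Z (N + h) a T (tails Z h N r.length) Rs) (PST_new a r M) := by
  induction r with
  | nil =>
    intro _ _ T _ M hM Rs hR
    have hM' : M = [] := hM
    subst hM'
    exact List.Forall₂.nil
  | cons x r ih =>
    intro hr hN T hT M hM Rs hR
    obtain ⟨m, t, rfl, hm, ht⟩ : ∃ m t, M = m :: t ∧ m.length = r.length + 1 ∧ isT r.length t := hM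
    cases hR with
    | @cons R _ Rs _ hR0 hR1 =>
    have hx := abs_le.1 (hr x List.mem_cons_self)
    have hr' : ∀ y ∈ r, |y| ≤ (h : ℤ) := fun y hy => hr y (List.mem_cons_of_mem _ hy)
    have hZ1 : 1 ≤ Z := by omega
    have hNr : Z ^ r.length ≤ N := (Nat.pow_le_pow_right hZ1 (Nat.le_succ _)).trans hN
    have hoff : offL Z h (r.length + 1) ≤ N := by
      have h1 := PST_offL Z h (r.length + 1) hZ
      have h2 : Z ^ (r.length + 1) ≤ N := hN
      omega
    have hhN : h ≤ N := by
      have h1 : offL Z h (r.length + 1) = h + Z * offL Z h r.length := rfl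
      omega
    have hT' : (T : ℤ) = (x + h) + Z * (rowV Z r + (offL Z h r.length : ℕ)) := by
      rw [hT, List.length_cons, PST_offL_succ]
      simp only [rowV]
      ring
    have hZi : (2 * (h : ℤ) + 1) ≤ Z := by exact_mod_cast hZ
    obtain ⟨hd, hq⟩ := PST_dig Z T (x + h) _ (by linarith [hx.1]) (by linarith [hx.2]) hT'
    have hih := ih hr' hNr (T / Z) hq t ht Rs hR1
    have h0 : PST_new a (x :: r) (m :: t) =
        (List.zipWith (fun u z => a * u - x * z) m (x :: r)) :: PST_new a r t := rfl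
    have h1 : stepR N Z (N + h) a T (tails Z h N (x :: r).length) (R :: Rs) =
        ((a * R + (N + h - T % Z) * (T + (N - offL Z h (r.length + 1)))) % N) ::
          stepR N Z (N + h) a (T / Z) (tails Z h N r.length) Rs := rfl
    rw [h0, h1]
    refine List.Forall₂.cons ?_ hih
    have hle : T % Z ≤ N + h := by
      have h3 : ((T % Z : ℕ) : ℤ) ≤ ((N + h : ℕ) : ℤ) := by
        rw [hd]
        push_cast
        have : (h : ℤ) ≤ N := by exact_mod_cast hhN
        linarith [hx.2]
      exact_mod_cast h3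
    have h4 : ((N + h - T % Z : ℕ) : ℤ) = N - x := by
      rw [Nat.cast_sub hle, hd]
      push_cast
      ring
    have h5 : ((T + (N - offL Z h (r.length + 1)) : ℕ) : ℤ) = rowV Z (x :: r) + N := by
      rw [Nat.cast_add, Nat.cast_sub hoff, hT, List.length_cons]
      ring
    rw [PST_zipV Z a x m (x :: r) (by rw [hm, List.length_cons]), Int.natCast_mod, Nat.cast_add, Nat.cast_mul,
      Nat.cast_mul, h4, h5]
    refine (Int.mod_modEq _ _).trans ?_
    have h6 : (a : ℤ) * R ≡ a * rowV Z m [ZMOD N] := hR0.mul_left _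
    have h7 : ((N : ℤ) - x) * (rowV Z (x :: r) + N) ≡ - (x * rowV Z (x :: r)) [ZMOD N] := by
      apply Int.ModEq.symm
      rw [Int.modEq_iff_dvd]
      exact ⟨rowV Z (x :: r) + N - x, by ring⟩
    have h8 := h6.add h7
    rw [← sub_eq_add_neg] at h8
    exact h8

theorem psR_sound (n Z h N B : ℕ) (hZ : 2 * h + 1 ≤ Z) (hN : Z ^ n ≤ N) (hb : bnd n B ≤ h) (M : List (List ℤ))
    (hM : isT n M) (hB : ∀ r ∈ M, ∀ a ∈ r, |a| ≤ B) (Rs : List ℕ)
    (hR : List.Forall₂ (fun (R : ℕ) (r : List ℤ) => (R : ℤ) ≡ rowV Z r [ZMOD N]) Rs M)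
    (hp : psR N Z (N + h) h (h + 1) (offs Z h N n) Rs = true) (v : List ℝ) (hv : v.length = n) : 0 ≤ qr M v := by
  induction n generalizing B M Rs v with
  | zero =>
    have hM' : M = [] := hM
    subst hM'
    simp [qr]
  | succ n ih =>
    obtain ⟨m, t, rfl, hm, ht⟩ : ∃ m t, M = m :: t ∧ m.length = n + 1 ∧ isT n t := hM
    cases hR with
    | @cons R _ Rs _ hR0 hR1 =>
    obtain ⟨y, v, rfl⟩ : ∃ y v', v = y :: v' := by
      cases v with
      | nil => simp at hv
      | cons y v => exact ⟨y, v, rfl⟩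
    obtain ⟨a, m, rfl⟩ : ∃ m0 m', m = m0 :: m' := by
      cases m with
      | nil => simp at hm
      | cons y v => exact ⟨y, v, rfl⟩
    have hv' : v.length = n := by simpa using hv
    have hm' : m.length = n := by simpa using hm
    subst hm'
    have hBh : B ≤ h := (PST_le_bnd _ _).trans hb
    have hBh' : (B : ℤ) ≤ h := by exact_mod_cast hBh
    have hrow : ∀ x ∈ a :: m, |x| ≤ (h : ℤ) := fun x hx => (hB _ List.mem_cons_self x hx).trans hBh'
    have hT := PST_T Z h N hZ (a :: m) hrow hN R hR0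
    rw [List.length_cons] at hT
    have hZ1 : 1 ≤ Z := by omega
    have hN' : Z ^ m.length ≤ N := (Nat.pow_le_pow_right hZ1 (Nat.le_succ _)).trans hN
    have hT' : (((R + offL Z h (m.length + 1)) % N : ℕ) : ℤ) =
        (a + h) + Z * (rowV Z m + (offL Z h m.length : ℕ)) := by
      rw [hT, PST_offL_succ]
      simp only [rowV]
      ring
    have hx := abs_le.1 (hrow a List.mem_cons_self)
    have hZi : (2 * (h : ℤ) + 1) ≤ Z := by exact_mod_cast hZ
    obtain ⟨hd, hq⟩ := PST_dig Z _ (a + h) _ (by linarith [hx.1]) (by linarith [hx.2]) hT'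
    have hps : psR N Z (N + h) h (h + 1) (offs Z h N (m.length + 1)) (R :: Rs) =
        Bool.rec (motive := fun _ => Bool) false
          (psR N Z (N + h) h (h + 1) (offs Z h N m.length)
            (stepR N Z (N + h) (((R + offL Z h (m.length + 1)) % N) % Z - h)
              (((R + offL Z h (m.length + 1)) % N) / Z) (tails Z h N m.length) Rs))
          (Nat.ble (h + 1) (((R + offL Z h (m.length + 1)) % N) % Z)) := rfl
    rw [hps] at hp
    cases hble : Nat.ble (h + 1) (((R + offL Z h (m.length + 1)) % N) % Z) with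
    | false =>
      rw [hble] at hp
      exact absurd hp (by simp)
    | true =>
      rw [hble] at hp
      have hle : h + 1 ≤ ((R + offL Z h (m.length + 1)) % N) % Z := Nat.le_of_ble_eq_true hble
      have ha : (1 : ℤ) ≤ a := by
        have h1 : ((h + 1 : ℕ) : ℤ) ≤ ((((R + offL Z h (m.length + 1)) % N) % Z : ℕ) : ℤ) := by exact_mod_cast hle
        rw [hd] at h1
        push_cast at h1
        linarith
      obtain ⟨a, rfl⟩ := Int.eq_ofNat_of_zero_le (by linarith : (0 : ℤ) ≤ a)
      have haN : ((R + offL Z h (m.length + 1)) % N) % Z - h = a := by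
        have h1 : ((((R + offL Z h (m.length + 1)) % N) % Z : ℕ) : ℤ) = ((a + h : ℕ) : ℤ) := by
          rw [hd]
          push_cast
          rfl
        have h2 : ((R + offL Z h (m.length + 1)) % N) % Z = a + h := by exact_mod_cast h1
        omega
      rw [haN] at hp
      have hmh : ∀ x ∈ m, |x| ≤ (h : ℤ) := fun x hx => hrow x (List.mem_cons_of_mem _ hx)
      have hmB : ∀ x ∈ m, |x| ≤ (B : ℤ) := fun x hx => hB _ List.mem_cons_self x (List.mem_cons_of_mem _ hx)
      have hst := PST_step Z h N hZ a m hmh hN' _ hq t ht Rs hR1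
      have hqr := PST_qr (a : ℤ) m t ht v hv'
      have hpos : 0 ≤ qr (PST_new a m t) v := by
        cases hml : m.length with
        | zero =>
          have ht' : t = [] := by
            rw [hml] at ht
            exact ht
          subst ht'
          have h0 : PST_new (a : ℤ) m [] = [] := by cases m <;> rfl
          rw [h0]
          simp [qr]
        | succ k =>
          refine ih (2 * (B * B)) hN' ?_ (PST_new a m t) (PST_isT a m t ht) ?_ _ hst hp v hv'
          · rw [hml] at hb ⊢
            exact hb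
          · exact PST_bd a B (hB _ List.mem_cons_self _ List.mem_cons_self) m hmB t
              (fun m hm => hB m (List.mem_cons_of_mem _ hm))
      rw [hqr] at hpos
      have hap : (0 : ℝ) < (a : ℤ) := by exact_mod_cast ha
      rw [PST_qrc]
      have key : 0 ≤ ((a : ℤ) : ℝ) * (((a : ℤ) : ℝ) * y ^ 2 + 2 * y * dotL (m.map (Int.cast : ℤ → ℝ)) v + qr t v) := by
        nlinarith [sq_nonneg (((a : ℤ) : ℝ) * y + dotL (m.map (Int.cast : ℤ → ℝ)) v)]
      exact nonneg_of_mul_nonneg_right key hap

end Pool.Agent.PKD
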