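import Pool.Agent.PKD.PST
/-!
PSU (160 lines). Soundness of the test of many matrices.
PROOF. psA: induction on k: psA ... (k+1) M = Bool.rec false (psA ... k (divM Y M)) (psR ... (rowsD Y rd Z N M cs)) (rfl); digits of divM: (v / Y) / Y^j % Y = v / Y^(j+1) % Y. For one matrix: m := floor(digit/rd) - H (integers), rows
m with first entry of each row replaced by 2 m - (n-1). rowsD gives values congruent to rowV of these rows: rowD = Σ digit_k Z^k, constant c = N - (offL Z H len + H + (n-1)) (check that it does not underflow: offL Z H len + H + n ≤ N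
because H + n + 1 ≤ bnd.. ≤ 2^(zb-1) and Z = 2^zb + 1; offL Z H l ≤ Z^l - 1 roughly). Bounds: digit/rd ≤ Y/rd, |entries| ≤ 2 (Y/rd + H + n + 2). psR_sound with h = 2^(zb-1), Z = 2^zb + 1 = 2h + 1. Then
2 Σ m_ij s_i s_j (i ≤ j, coefficient form) - (n-1) Σ s_i² ≥ 0, and digit - rd H = rd m + rem with 0 ≤ rem < rd: Σ_{i≤j} rem_ij s_i s_j ≥ - rd Σ_{i<j} |s_i s_j| ≥ - rd (n-1)/2 Σ s_i². n = 0: trivial.
(qf of the flattened list is the coefficient form; qf M (s :: ss) takes the first ss.length + 1 entries.)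
-/
set_option autoImplicit false

open Pool.Agent.MSQ

namespace Pool.Agent.PKD

private def psuC (Y rd H v : ℕ) : ℝ := ((v % Y : ℕ) : ℝ) - rd * H
private def psuM (Y rd H v : ℕ) : ℤ := ((v % Y / rd : ℕ) : ℤ) - H
private def psuR (Y rd H e : ℕ) : List ℕ → List ℤ
  | [] => []
  | v :: t => (2 * psuM Y rd H v - e) :: t.map (psuM Y rd H)
private def psuS : List ℝ → ℝ
  | [] => 0
  | x :: v => x ^ 2 + psuS v

private theorem psu_divM (Y : ℕ) (M : List (List ℕ)) : divM Y M = M.map (List.map (· / Y)) := by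
  have h1 : ∀ r : List ℕ, divR Y r = r.map (· / Y) := by
    intro r
    induction r with
    | nil => rfl
    | cons v r ih =>
      change (v / Y) :: divR Y r = _
      rw [ih]; rfl
  induction M with
  | nil => rfl
  | cons r M ih =>
    change divR Y r :: divM Y M = _
    rw [ih, h1]; rfl

private theorem psu_psA (Y rd N Z Nh h h1 : ℕ) (cs : List ℕ) (os : List (ℕ × List ℕ)) (k : ℕ) :
    ∀ M : List (List ℕ), psA Y rd N Z Nh h h1 cs os k M = true → ∀ j < k,
      psR N Z Nh h h1 os (rowsD Y rd Z N (M.map (List.map (· / Y ^ j))) cs) = true := by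
  induction k with
  | zero => intro M _ j hj; omega
  | succ k ih =>
    intro M hp j hj
    have e1 : psA Y rd N Z Nh h h1 cs os (k + 1) M =
        Bool.rec (motive := fun _ => Bool) false (psA Y rd N Z Nh h h1 cs os k (divM Y M))
          (psR N Z Nh h h1 os (rowsD Y rd Z N M cs)) := rfl
    rw [e1] at hp
    cases hb : psR N Z Nh h h1 os (rowsD Y rd Z N M cs) with
    | false => rw [hb] at hp; exact absurd hp (by simp)
    | true =>
      rw [hb] at hp
      change psA Y rd N Z Nh h h1 cs os k (divM Y M) = true at hp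
      cases j with
      | zero =>
        have e2 : M.map (List.map (· / Y ^ 0)) = M := by
          have e3 : (fun v : ℕ => v / Y ^ 0) = id := by funext v; simp
          rw [e3]; simp
        rw [e2]; exact hb
      | succ j =>
        have h2 := ih (divM Y M) hp j (by omega)
        have e2 : (divM Y M).map (List.map (· / Y ^ j)) = M.map (List.map (· / Y ^ (j + 1))) := by
          rw [psu_divM, List.map_map]
          refine List.map_congr_left fun r _ => ?_
          rw [Function.comp_apply, List.map_map]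
          refine List.map_congr_left fun v _ => ?_
          rw [Function.comp_apply, Nat.div_div_eq_div_mul, pow_succ']
        rw [e2] at h2
        exact h2

private theorem psu_isTN_map (f : ℕ → ℕ) (n : ℕ) : ∀ M : List (List ℕ), isTN n M →
    isTN n (M.map (List.map f)) := by
  induction n with
  | zero => intro M hM; change M = [] at hM; subst hM; rfl
  | succ n ih =>
    intro M hM
    obtain ⟨r, t, h1, h2, h3⟩ := hM
    exact ⟨r.map f, t.map (List.map f), by rw [h1]; rfl, by rw [List.length_map, h2], ih t h3⟩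

private theorem psu_off (Z H e n : ℕ) (hZ : 2 ≤ Z) (h2 : 2 * H + e ≤ Z) : ∀ l, 1 ≤ l → l ≤ n →
    offL Z H l + (H + e) ≤ Z ^ n := by
  have h3 : ∀ l, offL Z H (l + 1) + (H + e) ≤ Z ^ (l + 1) := by
    intro l
    induction l with
    | zero =>
      change H + Z * 0 + (H + e) ≤ _
      simp only [zero_add, pow_one]
      omega
    | succ l ih =>
      change H + Z * offL Z H (l + 1) + (H + e) ≤ _
      have h4 : Z * (offL Z H (l + 1) + (H + e)) ≤ Z * Z ^ (l + 1) := Nat.mul_le_mul_left _ ih
      have h5 : 2 * (H + e) ≤ Z * (H + e) := Nat.mul_le_mul_right _ hZ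
      rw [pow_succ']
      rw [mul_add] at h4
      omega
  intro l h1 hl
  obtain ⟨l', rfl⟩ : ∃ l', l = l' + 1 := ⟨l - 1, by omega⟩
  exact (h3 l').trans (Nat.pow_le_pow_right (by omega) hl)

private theorem psu_rowD (Y rd H Z : ℕ) (r : List ℕ) :
    rowV Z (r.map (psuM Y rd H)) = (rowD Y rd Z r : ℤ) - offL Z H r.length := by
  induction r with
  | nil => simp [rowV, rowD, offL]
  | cons v r ih =>
    have e1 : rowD Y rd Z (v :: r) = v % Y / rd + Z * rowD Y rd Z r := rfl
    have e2 : offL Z H (v :: r).length = H + Z * offL Z H r.length := rfl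
    rw [e1, e2, List.map_cons, rowV, ih, psuM]
    push_cast
    ring

private theorem psu_rows (Y rd H Z N e : ℕ) (n : ℕ) (hoff : ∀ l, 1 ≤ l → l ≤ n → offL Z H l + (H + e) ≤ N) :
    ∀ M : List (List ℕ), isTN n M →
    List.Forall₂ (fun (R : ℕ) (r : List ℤ) => (R : ℤ) ≡ rowV Z r [ZMOD N])
      (rowsD Y rd Z N M (csL Z H N e n)) (M.map (psuR Y rd H e)) := by
  induction n with
  | zero => intro M hM; change M = [] at hM; subst hM; exact List.Forall₂.nil
  | succ n ih =>
    intro M hM
    obtain ⟨r, t, h1, h2, h3⟩ := hM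
    subst h1
    have hr := ih (fun l h4 h5 => hoff l h4 (by omega)) t h3
    cases r with
    | nil => simp at h2
    | cons v r =>
      have e1 : rowsD Y rd Z N ((v :: r) :: t) (csL Z H N e (n + 1)) =
          ((v % Y / rd + rowD Y rd Z (v :: r)) + (N - (offL Z H (n + 1) + (H + e)))) % N ::
            rowsD Y rd Z N t (csL Z H N e n) := rfl
      rw [e1, List.map_cons]
      refine List.Forall₂.cons ?_ hr
      have hl : r.length = n := by simpa using h2
      have hle := hoff (n + 1) (by omega) le_rfl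
      have e2 : rowD Y rd Z (v :: r) = v % Y / rd + Z * rowD Y rd Z r := rfl
      have e3 : offL Z H (n + 1) = H + Z * offL Z H n := rfl
      have e4 : rowV Z (psuR Y rd H e (v :: r)) =
          ((v % Y / rd + rowD Y rd Z (v :: r) : ℕ) : ℤ) - ((offL Z H (n + 1) + (H + e) : ℕ) : ℤ) := by
        rw [psuR, rowV, psu_rowD, hl, e2, e3, psuM]
        push_cast
        ring
      rw [e4]
      have e5 : ((((v % Y / rd + rowD Y rd Z (v :: r)) + (N - (offL Z H (n + 1) + (H + e)))) % N : ℕ) : ℤ) ≡
          (((v % Y / rd + rowD Y rd Z (v :: r)) + (N - (offL Z H (n + 1) + (H + e))) : ℕ) : ℤ) [ZMOD N] := by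
        rw [Int.natCast_mod]
        exact Int.mod_modEq _ _
      refine e5.trans ?_
      rw [Nat.cast_add (v % Y / rd + rowD Y rd Z (v :: r)), Nat.cast_sub hle]
      have e6 : (((v % Y / rd + rowD Y rd Z (v :: r) : ℕ) : ℤ) - ((offL Z H (n + 1) + (H + e) : ℕ) : ℤ)) =
          (((v % Y / rd + rowD Y rd Z (v :: r) : ℕ) : ℤ) +
            ((N : ℤ) - ((offL Z H (n + 1) + (H + e) : ℕ) : ℤ))) + N * (-1) := by ring
      rw [e6]
      exact (Int.modEq_add_fac_self (n := (N : ℤ))).symm

private theorem psu_isT (Y rd H e : ℕ) (n : ℕ) : ∀ M : List (List ℕ), isTN n M →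
    isT n (M.map (psuR Y rd H e)) := by
  induction n with
  | zero => intro M hM; change M = [] at hM; subst hM; rfl
  | succ n ih =>
    intro M hM
    obtain ⟨r, t, h1, h2, h3⟩ := hM
    subst h1
    refine ⟨psuR Y rd H e r, t.map (psuR Y rd H e), rfl, ?_, ih t h3⟩
    cases r with
    | nil => simp at h2
    | cons v r => simpa [psuR] using h2

private theorem psu_bound (Y rd H e B : ℕ) (hY : 1 ≤ Y) (hB : 2 * (Y / rd) + 2 * H + e ≤ B) (M : List (List ℕ)) :
    ∀ r ∈ M.map (psuR Y rd H e), ∀ a ∈ r, |a| ≤ (B : ℤ) := by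
  have h0 : ∀ v : ℕ, v % Y / rd ≤ Y / rd := fun v => Nat.div_le_div_right (Nat.mod_lt _ hY).le
  intro r hr a ha
  obtain ⟨r', _, rfl⟩ := List.mem_map.1 hr
  cases r' with
  | nil => simp [psuR] at ha
  | cons v t =>
    rw [psuR] at ha
    rcases List.mem_cons.1 ha with h1 | h1
    · subst h1
      have h2 := h0 v
      rw [abs_le, psuM]
      generalize v % Y / rd = g at h2 ⊢
      generalize Y / rd = g' at h2 hB
      constructor <;> omega
    · obtain ⟨u, _, rfl⟩ := List.mem_map.1 h1
      have h2 := h0 u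
      rw [abs_le, psuM]
      generalize u % Y / rd = g at h2 ⊢
      generalize Y / rd = g' at h2 hB
      constructor <;> omega

private theorem psu_dot (Y rd H : ℕ) (hrd : 1 ≤ rd) (x : ℝ) : ∀ (t : List ℕ) (v : List ℝ), v.length = t.length →
    rd * x * dotL ((t.map (psuM Y rd H)).map fun z : ℤ => (z : ℝ)) v - (rd : ℝ) / 2 * (t.length * x ^ 2 + psuS v) ≤
      x * dotL (t.map (psuC Y rd H)) v := by
  intro t
  induction t with
  | nil =>
    intro v hv
    have : v = [] := List.length_eq_zero_iff.1 (by simpa using hv)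
    subst this
    simp [dotL, psuS]
  | cons u t ih =>
    intro v hv
    cases v with
    | nil => simp at hv
    | cons y v =>
      have h1 := ih v (by simpa using hv)
      have hrd' : (0 : ℝ) < rd := by exact_mod_cast hrd
      have e1 : ((u % Y : ℕ) : ℝ) = rd * ((u % Y / rd : ℕ) : ℝ) + ((u % Y % rd : ℕ) : ℝ) := by
        exact_mod_cast (Nat.div_add_mod (u % Y) rd).symm
      have h2 : ((u % Y % rd : ℕ) : ℝ) ≤ rd := by exact_mod_cast (Nat.mod_lt _ hrd).le
      have h3 : (0 : ℝ) ≤ ((u % Y % rd : ℕ) : ℝ) := Nat.cast_nonneg _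
      simp only [List.map_cons, dotL, psuS, List.length_cons]
      have h4 : rd * x * (((psuM Y rd H u : ℤ) : ℝ) * y) - (rd : ℝ) / 2 * (x ^ 2 + y ^ 2) ≤
          x * (psuC Y rd H u * y) := by
        rw [psuC, psuM, e1]
        generalize u % Y / rd = a' at *
        rw [Int.cast_sub, Int.cast_natCast, Int.cast_natCast]
        set a : ℝ := (a' : ℝ)
        set b : ℝ := ((u % Y % rd : ℕ) : ℝ)
        have h5 : -((rd : ℝ) / 2 * (x ^ 2 + y ^ 2)) ≤ b * (x * y) := by
          nlinarith [mul_nonneg h3 (sq_nonneg (x + y)), mul_nonneg (sub_nonneg.2 h2) (add_nonneg (sq_nonneg x) (sq_nonneg y))]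
        have h6 : x * ((rd * a + b - rd * H) * y) = rd * x * ((a - H) * y) + b * (x * y) := by ring
        linarith
      push_cast
      nlinarith [h1, h4]

private theorem psu_qf (Y rd H e : ℕ) (hrd : 1 ≤ rd) (n : ℕ) : ∀ (M : List (List ℕ)) (s : List ℝ), isTN n M →
    s.length = n → (rd : ℝ) / 2 * (qr (M.map (psuR Y rd H e)) s + e * psuS s) - (rd : ℝ) / 2 * ((n : ℝ) - 1) * psuS s ≤
      qf (M.flatten.map (psuC Y rd H)) s := by
  induction n with
  | zero =>
    intro M s hM hs
    change M = [] at hM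
    subst hM
    have : s = [] := List.length_eq_zero_iff.1 hs
    subst this
    simp [qr, qf, psuS]
  | succ n ih =>
    intro M s hM hs
    obtain ⟨r, t, h1, h2, h3⟩ := hM
    subst h1
    cases r with
    | nil => simp at h2
    | cons v r =>
      cases s with
      | nil => simp at hs
      | cons x s =>
        have hr : r.length = n := by simpa using h2
        have hs' : s.length = n := by simpa using hs
        have h4 := ih t s h3 hs'
        have e1 : ((v :: r) :: t).flatten.map (psuC Y rd H) =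
            (psuC Y rd H v :: r.map (psuC Y rd H)) ++ t.flatten.map (psuC Y rd H) := by
          simp
        have e2 : (psuC Y rd H v :: r.map (psuC Y rd H)).length = s.length + 1 := by
          simp [hr, hs']
        rw [e1, qf, List.take_left' e2, List.drop_left' e2, dotL]
        have h5 := psu_dot Y rd H hrd x r s (by rw [hs', hr])
        have e3 : qr (((v :: r) :: t).map (psuR Y rd H e)) (x :: s) =
            ((2 * psuM Y rd H v - e : ℤ) : ℝ) * x ^ 2 +
              2 * x * dotL ((r.map (psuM Y rd H)).map fun z : ℤ => (z : ℝ)) s +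
              qr (t.map (psuR Y rd H e)) s := by
          rw [List.map_cons, psuR, qr]
          have e5 : ∀ L : List ℤ, List.map (fun z : ℝ => z) (do let a ← L; pure (a : ℝ)) =
              L.map fun z : ℤ => (z : ℝ) := by
            intro L
            induction L with
            | nil => rfl
            | cons a L ih => simpa using ih
          rw [e5]
        rw [e3, psuS]
        have hrd' : (0 : ℝ) < rd := by exact_mod_cast hrd
        have e4 : ((v % Y : ℕ) : ℝ) = rd * ((v % Y / rd : ℕ) : ℝ) + ((v % Y % rd : ℕ) : ℝ) := by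
          exact_mod_cast (Nat.div_add_mod (v % Y) rd).symm
        have h6 : (0 : ℝ) ≤ ((v % Y % rd : ℕ) : ℝ) := Nat.cast_nonneg _
        have h7 : rd * ((psuM Y rd H v : ℤ) : ℝ) * x ^ 2 ≤ x * (psuC Y rd H v * x) := by
          rw [psuC, psuM, e4, Int.cast_sub, Int.cast_natCast, Int.cast_natCast]
          nlinarith [mul_nonneg h6 (sq_nonneg x)]
        rw [hr] at h5
        push_cast
        nlinarith [h4, h5, h7]

private theorem psu_bnd (n B : ℕ) : B ≤ bnd (n + 1) B := by
  induction n generalizing B with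
  | zero => exact le_rfl
  | succ n ih =>
    change B ≤ bnd (n + 1) (2 * (B * B))
    refine le_trans ?_ (ih _)
    rcases Nat.eq_zero_or_pos B with h | h
    · subst h; simp
    · nlinarith

theorem psT_sound (n Y rd H zb k : ℕ) (M : List (List ℕ)) (hM : isTN n M) (hp : psT n Y rd H zb k M = true) (j : ℕ)
    (hj : j < k) (s : List ℝ) (hs : s.length = n) :
    0 ≤ qf (M.flatten.map fun v => ((v / Y ^ j % Y : ℕ) : ℝ) - rd * H) s := by
  rcases Nat.eq_zero_or_pos n with hn | hn
  · subst hn
    change M = [] at hM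
    subst hM
    have : s = [] := List.length_eq_zero_iff.1 hs
    subst this
    simp [qf]
  obtain ⟨n', rfl⟩ : ∃ n', n = n' + 1 := ⟨n - 1, by omega⟩
  unfold psT at hp
  simp only [Bool.and_eq_true] at hp
  obtain ⟨⟨⟨⟨hb0, hrd0⟩, hzb0⟩, hY0⟩, hA⟩ := hp
  have hb : bnd (n' + 1) (2 * (Y / rd + (H + (n' + 1 + 2)))) ≤ 2 ^ (zb - 1) := Nat.le_of_ble_eq_true hb0
  have hrd : 1 ≤ rd := Nat.le_of_ble_eq_true hrd0
  have hzb : 1 ≤ zb := Nat.le_of_ble_eq_true hzb0
  have hY : 1 ≤ Y := Nat.le_of_ble_eq_true hY0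
  have hBle := (psu_bnd n' (2 * (Y / rd + (H + (n' + 1 + 2))))).trans hb
  have hB2 : 2 * (H + (n' + 1 + 2)) ≤ 2 ^ (zb - 1) :=
    (Nat.mul_le_mul_left 2 (Nat.le_add_left _ (Y / rd))).trans hBle
  have hZe : 2 ^ zb + 1 = 2 * 2 ^ (zb - 1) + 1 := by
    obtain ⟨z, rfl⟩ : ∃ z, zb = z + 1 := ⟨zb - 1, by omega⟩
    rw [Nat.add_sub_cancel, pow_succ']
  have hA' := psu_psA _ _ _ _ _ _ _ _ _ _ M hA j hj
  set h : ℕ := 2 ^ (zb - 1) with hh
  set Z : ℕ := 2 ^ zb + 1 with hZd
  have hM' := psu_isTN_map (· / Y ^ j) (n' + 1) M hM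
  set M' := M.map (List.map (· / Y ^ j)) with hM'd
  have hA2 : psR (Z ^ (n' + 1)) Z (Z ^ (n' + 1) + h) h (h + 1) (offs Z h (Z ^ (n' + 1)) (n' + 1))
      (rowsD Y rd Z (Z ^ (n' + 1)) M' (csL Z H (Z ^ (n' + 1)) n' (n' + 1))) = true := hA'
  have hoff := psu_off Z H n' (n' + 1) (by omega) (by omega)
  have hq := psR_sound (n' + 1) Z h (Z ^ (n' + 1)) (2 * (Y / rd + (H + (n' + 1 + 2)))) (by omega) le_rfl hb
    (M'.map (psuR Y rd H n')) (psu_isT Y rd H n' (n' + 1) M' hM')
    (psu_bound Y rd H n' _ hY (by omega) M')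
    _ (psu_rows Y rd H Z (Z ^ (n' + 1)) n' (n' + 1) hoff M' hM') hA2 s hs
  have hfin := psu_qf Y rd H n' hrd (n' + 1) M' s hM' hs
  have e1 : M'.flatten.map (psuC Y rd H) = M.flatten.map fun v => ((v / Y ^ j % Y : ℕ) : ℝ) - rd * H := by
    rw [hM'd, ← List.map_flatten, List.map_map]
    rfl
  rw [e1] at hfin
  refine le_trans ?_ hfin
  have e2 : (rd : ℝ) / 2 * (qr (M'.map (psuR Y rd H n')) s + (n' : ℝ) * psuS s) -
      (rd : ℝ) / 2 * (((n' + 1 : ℕ) : ℝ) - 1) * psuS s = (rd : ℝ) / 2 * qr (M'.map (psuR Y rd H n')) s := by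
    push_cast
    ring
  rw [e2]
  positivity

end Pool.Agent.PKD
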