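import Pool.Agent.PKD.Defs
/-!
RD1 (100 lines). Digits for one variable: contexts with X = 0 and τ = 0 (only the part of degree 0 in X matters).
PROOF. As R3.digits (RDG). Let cf k := p.coeff (single 1 k) for the polynomial p of R3. The value of p at (0, Y) is Σ_{k ≤ d} cf k Y^k and the value at (0, σ) is Σ cf k σ^k (all monomials with positive X exponent vanish). |cf k| ≤ N1 p.
-/
set_option autoImplicit false

open Pool.Agent.MSQ

namespace Pool.Agent.PKD

private theorem rd1_reps (Y n : ℕ) : reps Y n = ∑ k ∈ Finset.range n, Y ^ k := by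
  induction n with
  | zero => rfl
  | succ n ih =>
    have h : reps Y (n + 1) = 1 + Y * reps Y n := rfl
    rw [h, ih, Finset.sum_range_succ', Finset.mul_sum, pow_zero, add_comm]
    congr 1
    exact Finset.sum_congr rfl fun k _ => (pow_succ' Y k).symm

/-- the exponent with the number `k` -/
private noncomputable def rd1M (k : ℕ) : Fin 2 →₀ ℕ := Finsupp.single 1 k

private theorem rd1M_zero (k : ℕ) : rd1M k 0 = 0 := by
  simp [rd1M]

private theorem rd1M_one (k : ℕ) : rd1M k 1 = k := by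
  simp [rd1M]

private theorem rd1_inj : Function.Injective rd1M := by
  intro k l h
  have h1 := DFunLike.congr_fun h 1
  rwa [rd1M_one, rd1M_one] at h1

private theorem rd1_surj {m : Fin 2 →₀ ℕ} (h0 : m 0 = 0) : rd1M (m 1) = m := by
  ext i
  fin_cases i
  · change rd1M (m 1) 0 = m 0
    rw [rd1M_zero, h0]
  · change rd1M (m 1) 1 = m 1
    rw [rd1M_one]

private theorem rd1_eval {R : Type} [CommRing R] {d : ℕ} (p : MvPolynomial (Fin 2) ℤ)
    (h1 : p.degreeOf 1 ≤ d) (y : R) :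
    MvPolynomial.aeval ![0, y] p = ∑ k ∈ Finset.range (d + 1),
      ((p.coeff (rd1M k) : ℤ) : R) * y ^ k := by
  have e1 : MvPolynomial.aeval ![0, y] p =
      ∑ m ∈ p.support, ((p.coeff m : ℤ) : R) * ((0 : R) ^ (m 0) * y ^ (m 1)) := by
    rw [MvPolynomial.aeval_def, MvPolynomial.eval₂_eq']
    refine Finset.sum_congr rfl fun m _ => ?_
    rw [Fin.prod_univ_two]
    simp
  have e2 : ∑ k ∈ Finset.range (d + 1), ((p.coeff (rd1M k) : ℤ) : R) * y ^ k =
      ∑ m ∈ (Finset.range (d + 1)).image rd1M,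
        ((p.coeff m : ℤ) : R) * ((0 : R) ^ (m 0) * y ^ (m 1)) := by
    rw [Finset.sum_image fun a _ b _ hab => rd1_inj hab]
    refine Finset.sum_congr rfl fun k _ => ?_
    rw [rd1M_zero, rd1M_one, pow_zero, one_mul]
  rw [e1, e2]
  have e3 : ∑ m ∈ p.support, ((p.coeff m : ℤ) : R) * ((0 : R) ^ (m 0) * y ^ (m 1)) =
      ∑ m ∈ p.support.filter (fun m => m 0 = 0),
        ((p.coeff m : ℤ) : R) * ((0 : R) ^ (m 0) * y ^ (m 1)) := by
    symm
    refine Finset.sum_subset (Finset.filter_subset _ _) ?_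
    intro m hm hm2
    have h3 : m 0 ≠ 0 := fun h => hm2 (Finset.mem_filter.mpr ⟨hm, h⟩)
    rw [zero_pow h3, zero_mul, mul_zero]
  rw [e3]
  refine Finset.sum_subset ?_ ?_
  · intro m hm
    rw [Finset.mem_filter] at hm
    have hm1 : m 1 ≤ d := (MvPolynomial.monomial_le_degreeOf 1 hm.1).trans h1
    rw [Finset.mem_image]
    exact ⟨m 1, Finset.mem_range.mpr (by omega), rd1_surj hm.2⟩
  · intro m hm hm2
    rw [Finset.mem_image] at hm
    obtain ⟨k, _, rfl⟩ := hm
    have h3 : rd1M k ∉ p.support := fun h =>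
      hm2 (Finset.mem_filter.mpr ⟨h, rd1M_zero k⟩)
    rw [MvPolynomial.notMem_support_iff.mp h3, Int.cast_zero, zero_mul]

private theorem rd1_coeff (p : MvPolynomial (Fin 2) ℤ) (m : Fin 2 →₀ ℕ) :
    (p.coeff m).natAbs ≤ N1 p := by
  by_cases hm : m ∈ p.support
  · exact Finset.single_le_sum (f := fun m => (p.coeff m).natAbs) (fun _ _ => Nat.zero_le _) hm
  · rw [MvPolynomial.notMem_support_iff.mp hm]
    exact Nat.zero_le _

private theorem rd1_lt {Y : ℕ} {e : ℕ → ℕ} (he : ∀ k, e k < Y) (n : ℕ) :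
    ∑ k ∈ Finset.range n, e k * Y ^ k < Y ^ n := by
  induction n with
  | zero => simp
  | succ n ih =>
    rw [Finset.sum_range_succ, pow_succ]
    have h1 : (e n + 1) * Y ^ n ≤ Y * Y ^ n := Nat.mul_le_mul_right _ (he n)
    nlinarith

private theorem rd1_digit {Y : ℕ} {e : ℕ → ℕ} (he : ∀ k, e k < Y) {n k : ℕ} (hk : k < n) :
    (∑ i ∈ Finset.range n, e i * Y ^ i) / Y ^ k % Y = e k := by
  obtain ⟨l, rfl⟩ := Nat.exists_eq_add_of_lt hk
  have hY : 0 < Y := (Nat.zero_le _).trans_lt (he 0)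
  have h1 : ∑ i ∈ Finset.range (k + l + 1), e i * Y ^ i =
      Y ^ k * (e k + Y * ∑ i ∈ Finset.range l, e (k + (i + 1)) * Y ^ i) +
        ∑ i ∈ Finset.range k, e i * Y ^ i := by
    rw [add_assoc, Finset.sum_range_add, Finset.sum_range_succ']
    rw [Finset.mul_sum, mul_add, Finset.mul_sum]
    have h2 : ∀ i ∈ Finset.range l, e (k + (i + 1)) * Y ^ (k + (i + 1)) =
        Y ^ k * (Y * (e (k + (i + 1)) * Y ^ i)) := by
      intro i _
      rw [pow_add, pow_succ]
      ring
    rw [Finset.sum_congr rfl h2, add_zero]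
    ring
  rw [h1, Nat.mul_add_div (pow_pos hY k), Nat.div_eq_of_lt (rd1_lt he k), add_zero,
    Nat.add_mul_mod_self_left, Nat.mod_eq_of_lt (he k)]

theorem R3.digits1 {C : Cx} {n d a c h : ℕ} {r : ℝ} (hr : R3 C n d a r c) (hc : c ≤ h) (hY : 2 * h + 1 ≤ C.Y)
    (hX : C.X = 0) (hτ : C.τ = 0) (hN : C.N = C.Y ^ (d + 1)) :
    ∃ cf : ℕ → ℤ, (∀ k, |cf k| ≤ h) ∧
      (∀ k < d + 1, (((a + h * reps C.Y (d + 1)) % C.N / C.Y ^ k % C.Y : ℕ) : ℤ) = cf k + h) ∧
      r = ∑ k ∈ Finset.range (d + 1), (cf k : ℝ) * C.σ ^ k := by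
  obtain ⟨p, _, h1, hn, ha, hr⟩ := hr
  have hcf : ∀ k, |p.coeff (rd1M k)| ≤ h := by
    intro k
    rw [Int.abs_eq_natAbs]
    exact_mod_cast (rd1_coeff p (rd1M k)).trans (hn.trans hc)
  refine ⟨fun k => p.coeff (rd1M k), hcf, ?_, ?_⟩
  · intro k hk
    set e : ℕ → ℕ := fun k => (p.coeff (rd1M k) + h).toNat with he
    have hev : ∀ k, (e k : ℤ) = p.coeff (rd1M k) + h := by
      intro k
      rw [he]
      have := (abs_le.mp (hcf k)).1
      exact Int.toNat_of_nonneg (by linarith)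
    have helt : ∀ k, e k < C.Y := by
      intro k
      have h2 := (abs_le.mp (hcf k)).2
      have h3 := hev k
      have h4 : ((2 * h + 1 : ℕ) : ℤ) ≤ C.Y := by exact_mod_cast hY
      push_cast at h4
      have : (e k : ℤ) < C.Y := by rw [h3]; linarith
      exact_mod_cast this
    have hmod : (a + h * reps C.Y (d + 1)) % C.N =
        ∑ i ∈ Finset.range (d + 1), e i * C.Y ^ i := by
      rw [← Nat.mod_eq_of_lt (a := ∑ i ∈ Finset.range (d + 1), e i * C.Y ^ i)
        (b := C.N) (by rw [hN]; exact rd1_lt helt _)]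
      change Nat.ModEq _ _ _
      rw [← Int.natCast_modEq_iff]
      push_cast
      rw [rd1_reps]
      push_cast
      have h5 : MvPolynomial.eval ![(C.X : ℤ), (C.Y : ℤ)] p =
          ∑ k ∈ Finset.range (d + 1), p.coeff (rd1M k) * (C.Y : ℤ) ^ k := by
        have h6 := rd1_eval p h1 (C.Y : ℤ)
        rw [MvPolynomial.aeval_def] at h6
        have h7 : MvPolynomial.eval ![(C.X : ℤ), (C.Y : ℤ)] p =
            MvPolynomial.eval₂ (algebraMap ℤ ℤ) ![(0 : ℤ), (C.Y : ℤ)] p := by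
          rw [hX]
          rfl
        rw [h7, h6]
        refine Finset.sum_congr rfl fun k _ => ?_
        rw [Int.cast_id]
      rw [h5] at ha
      have h8 : ∑ i ∈ Finset.range (d + 1), (e i : ℤ) * (C.Y : ℤ) ^ i =
          (∑ k ∈ Finset.range (d + 1), p.coeff (rd1M k) * (C.Y : ℤ) ^ k) +
            h * ∑ k ∈ Finset.range (d + 1), (C.Y : ℤ) ^ k := by
        rw [Finset.mul_sum, ← Finset.sum_add_distrib]
        refine Finset.sum_congr rfl fun k _ => ?_
        rw [hev k, add_mul]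
      rw [h8]
      exact ha.add_right _
    rw [hmod, rd1_digit helt hk, hev k]
  · rw [hr, hτ, rd1_eval p h1]

end Pool.Agent.PKD
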