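import Pool.Agent.PKD.Defs
/-!
RPA (120 lines). Norm of polynomials and the basic relation.
PROOF. N1 of a product: p * q = sum over pairs of monomials (MvPolynomial: p = Σ monomial m (coeff m p)); N1 (p + q) ≤ N1 p + N1 q (extend both sums to the union of the supports), N1 (monomial m c * q) ≤ |c| N1 q
(or use AddMonoidAlgebra / Finsupp.sum). degreeOf_add_le, degreeOf_mul_le, degreeOf_C, degreeOf_X. Sub: om.sub a b = a + (N - b % N), congruent to a - b because b % N ≤ N (hN).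
mul: Nat.mod (a*b) N ≡ a b. All operations of om, rr, ON unfold by rfl (Nat.add a b = a + b etc.).
-/
set_option autoImplicit false

open Pool.Agent.MSQ

namespace Pool.Agent.PKD

theorem N1_eq {p : MvPolynomial (Fin 2) ℤ} {S : Finset (Fin 2 →₀ ℕ)} (h : p.support ⊆ S) :
    N1 p = ∑ m ∈ S, (p.coeff m).natAbs := by
  unfold N1
  refine Finset.sum_subset h ?_
  intro m _ hm
  rw [MvPolynomial.notMem_support_iff.mp hm]
  rfl

theorem N1_le {p : MvPolynomial (Fin 2) ℤ} {S : Finset (Fin 2 →₀ ℕ)} (h : p.support ⊆ S) :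
    N1 p ≤ ∑ m ∈ S, (p.coeff m).natAbs := (N1_eq h).le

theorem N1_add (p q : MvPolynomial (Fin 2) ℤ) : N1 (p + q) ≤ N1 p + N1 q := by
  classical
  rw [N1_eq (p := p) (S := p.support ∪ q.support) Finset.subset_union_left,
    N1_eq (p := q) (S := p.support ∪ q.support) Finset.subset_union_right,
    N1_eq (p := p + q) (S := p.support ∪ q.support) MvPolynomial.support_add, ← Finset.sum_add_distrib]
  refine Finset.sum_le_sum fun m _ => ?_
  rw [MvPolynomial.coeff_add]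
  exact Int.natAbs_add_le _ _
theorem N1_sub (p q : MvPolynomial (Fin 2) ℤ) : N1 (p - q) ≤ N1 p + N1 q := by
  classical
  have h : N1 (-q) = N1 q := by
    unfold N1
    rw [MvPolynomial.support_neg]
    refine Finset.sum_congr rfl fun m _ => ?_
    rw [MvPolynomial.coeff_neg, Int.natAbs_neg]
  rw [sub_eq_add_neg, ← h]
  exact N1_add p (-q)
theorem N1_zero : N1 0 = 0 := by
  unfold N1
  simp

theorem N1_mon (a : Fin 2 →₀ ℕ) (c : ℤ) (q : MvPolynomial (Fin 2) ℤ) :
    N1 (MvPolynomial.monomial a c * q) ≤ c.natAbs * N1 q := by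
  classical
  have hs : (MvPolynomial.monomial a c * q).support ⊆ q.support.image (fun b => a + b) := by
    intro m hm
    have h1 := MvPolynomial.support_mul _ _ hm
    rw [Finset.mem_add] at h1
    obtain ⟨x, hx, y, hy, hxy⟩ := h1
    have hx' := MvPolynomial.support_monomial_subset hx
    rw [Finset.mem_singleton] at hx'
    rw [Finset.mem_image]
    exact ⟨y, hy, by rw [← hxy, hx']⟩
  refine (N1_le hs).trans ?_
  rw [Finset.sum_image (fun x _ y _ h => add_left_cancel h)]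
  unfold N1
  rw [Finset.mul_sum]
  refine Finset.sum_le_sum fun b _ => ?_
  rw [MvPolynomial.coeff_monomial_mul, Int.natAbs_mul]

theorem N1_sum {ι : Type} (s : Finset ι) (f : ι → MvPolynomial (Fin 2) ℤ) :
    N1 (∑ i ∈ s, f i) ≤ ∑ i ∈ s, N1 (f i) := by
  classical
  induction s using Finset.induction_on with
  | empty => simp [N1_zero]
  | insert a s ha ih =>
    rw [Finset.sum_insert ha, Finset.sum_insert ha]
    exact (N1_add _ _).trans (Nat.add_le_add_left ih _)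

theorem N1_mul (p q : MvPolynomial (Fin 2) ℤ) : N1 (p * q) ≤ N1 p * N1 q := by
  classical
  have hp : p * q = ∑ a ∈ p.support, MvPolynomial.monomial a (p.coeff a) * q := by
    conv_lhs => rw [p.as_sum]
    rw [Finset.sum_mul]
  rw [hp]
  refine (N1_sum _ _).trans ?_
  have h2 : N1 p * N1 q = ∑ a ∈ p.support, (p.coeff a).natAbs * N1 q := by
    unfold N1
    rw [Finset.sum_mul]
  rw [h2]
  exact Finset.sum_le_sum fun a _ => N1_mon a _ q
theorem R3.mono {C : Cx} {n m n' m' a c c' : ℕ} {r : ℝ} (h : R3 C n m a r c) (hn : n ≤ n') (hm : m ≤ m')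
    (hc : c ≤ c') : R3 C n' m' a r c' := by
  obtain ⟨p, h1, h2, h3, h4, h5⟩ := h
  exact ⟨p, h1.trans hn, h2.trans hm, h3.trans hc, h4, h5⟩
theorem R3.add {C : Cx} {n m a b c d : ℕ} {r s : ℝ} (h : R3 C n m a r c) (h' : R3 C n m b s d) :
    R3 C n m (C.om.add a b) (C.rr.add r s) (ON.add c d) := by
  obtain ⟨p, h1, h2, h3, h4, h5⟩ := h
  obtain ⟨q, k1, k2, k3, k4, k5⟩ := h'
  refine ⟨p + q, (MvPolynomial.degreeOf_add_le _ _ _).trans (max_le h1 k1),
    (MvPolynomial.degreeOf_add_le _ _ _).trans (max_le h2 k2), (N1_add p q).trans (Nat.add_le_add h3 k3), ?_, ?_⟩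
  · show (((a + b : ℕ)) : ℤ) ≡ _ [ZMOD C.N]
    rw [Nat.cast_add, map_add]
    exact h4.add k4
  · show r + s = _
    rw [map_add, ← h5, ← k5]
theorem R3.sub {C : Cx} {n m a b c d : ℕ} {r s : ℝ} (h : R3 C n m a r c) (h' : R3 C n m b s d) :
    R3 C n m (C.om.sub a b) (C.rr.sub r s) (ON.sub c d) := by
  obtain ⟨p, h1, h2, h3, h4, h5⟩ := h
  obtain ⟨q, k1, k2, k3, k4, k5⟩ := h'
  refine ⟨p - q, (MvPolynomial.degreeOf_sub_le _ _ _).trans (max_le h1 k1),
    (MvPolynomial.degreeOf_sub_le _ _ _).trans (max_le h2 k2), (N1_sub p q).trans (Nat.add_le_add h3 k3), ?_, ?_⟩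
  · show (((a + (C.N - b % C.N) : ℕ)) : ℤ) ≡ _ [ZMOD C.N]
    have hb : b % C.N ≤ C.N := (Nat.mod_lt b C.hN).le
    rw [Nat.cast_add, Nat.cast_sub hb, map_sub, sub_eq_add_neg (MvPolynomial.eval _ p)]
    refine h4.add ?_
    have e1 : ((C.N : ℤ) - ((b % C.N : ℕ) : ℤ)) ≡ -(b : ℤ) [ZMOD C.N] := by
      rw [Int.modEq_iff_dvd]
      have e2 := Nat.div_add_mod b C.N
      refine ⟨-(b / C.N : ℕ) - 1, ?_⟩
      have e3 : ((b : ℤ)) = (C.N : ℤ) * ((b / C.N : ℕ) : ℤ) + ((b % C.N : ℕ) : ℤ) := by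
        exact_mod_cast e2.symm
      rw [e3]
      ring
    exact e1.trans k4.neg
  · show r - s = _
    rw [map_sub, ← h5, ← k5]
theorem R3.mul {C : Cx} {n m n' m' a b c d : ℕ} {r s : ℝ} (h : R3 C n m a r c) (h' : R3 C n' m' b s d) :
    R3 C (n + n') (m + m') (C.om.mul a b) (C.rr.mul r s) (ON.mul c d) := by
  obtain ⟨p, h1, h2, h3, h4, h5⟩ := h
  obtain ⟨q, k1, k2, k3, k4, k5⟩ := h'
  refine ⟨p * q, (MvPolynomial.degreeOf_mul_le _ _ _).trans (Nat.add_le_add h1 k1),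
    (MvPolynomial.degreeOf_mul_le _ _ _).trans (Nat.add_le_add h2 k2), (N1_mul p q).trans (Nat.mul_le_mul h3 k3), ?_, ?_⟩
  · show (((a * b) % C.N : ℕ) : ℤ) ≡ _ [ZMOD C.N]
    rw [Int.natCast_mod, Nat.cast_mul, map_mul]
    exact (Int.mod_modEq _ _).trans (h4.mul k4)
  · show r * s = _
    rw [map_mul, ← h5, ← k5]
theorem R3.nat (C : Cx) (n m k : ℕ) : R3 C n m (C.om.nat k) (C.rr.nat k) (ON.nat k) := by
  refine ⟨MvPolynomial.C (k : ℤ), ?_, ?_, ?_, ?_, ?_⟩
  · rw [MvPolynomial.degreeOf_C]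
    exact Nat.zero_le _
  · rw [MvPolynomial.degreeOf_C]
    exact Nat.zero_le _
  · have h := N1_mon 0 (k : ℤ) 1
    have h1 : N1 1 ≤ 1 := by
      have hs : (1 : MvPolynomial (Fin 2) ℤ).support ⊆ {0} := by
        rw [← MvPolynomial.C_1, MvPolynomial.C_apply]
        exact MvPolynomial.support_monomial_subset
      refine (N1_le hs).trans ?_
      simp
    rw [mul_one] at h
    rw [MvPolynomial.C_apply]
    refine h.trans ?_
    show k * N1 1 ≤ k
    exact (Nat.mul_le_mul_left k h1).trans (Nat.mul_one k).le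
  · show ((k : ℕ) : ℤ) ≡ _ [ZMOD C.N]
    rw [MvPolynomial.eval_C]
  · show (k : ℝ) = _
    simp
theorem R3.X (C : Cx) (n m : ℕ) (hn : 1 ≤ n) : R3 C n m C.om.X C.rr.X ON.X := by
  refine ⟨MvPolynomial.X 0, ?_, ?_, ?_, ?_, ?_⟩
  · refine le_trans ?_ hn
    rw [MvPolynomial.degreeOf_X]
    split_ifs <;> simp
  · rw [MvPolynomial.degreeOf_X]
    simp
  · have hs : (MvPolynomial.X 0 : MvPolynomial (Fin 2) ℤ).support ⊆ {Finsupp.single 0 1} :=
      MvPolynomial.support_monomial_subset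
    refine (N1_le hs).trans ?_
    rw [Finset.sum_singleton, MvPolynomial.coeff_X, if_pos rfl]
    exact le_refl 1
  · show ((C.X : ℕ) : ℤ) ≡ _ [ZMOD C.N]
    simp
  · show C.τ = _
    simp
theorem R3.Y (C : Cx) (n m : ℕ) (hm : 1 ≤ m) : R3 C n m C.om.Y C.rr.Y ON.Y := by
  refine ⟨MvPolynomial.X 1, ?_, ?_, ?_, ?_, ?_⟩
  · rw [MvPolynomial.degreeOf_X]
    simp
  · refine le_trans ?_ hm
    rw [MvPolynomial.degreeOf_X]
    split_ifs <;> simp
  · have hs : (MvPolynomial.X 1 : MvPolynomial (Fin 2) ℤ).support ⊆ {Finsupp.single 1 1} :=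
      MvPolynomial.support_monomial_subset
    refine (N1_le hs).trans ?_
    rw [Finset.sum_singleton, MvPolynomial.coeff_X, if_pos rfl]
    exact le_refl 1
  · show ((C.Y : ℕ) : ℤ) ≡ _ [ZMOD C.N]
    simp
  · show C.σ = _
    simp

end Pool.Agent.PKD
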