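import Pool.Agent.PKD.RPA
/-!
RPL (120 lines). Relations for lists.
PROOF. Inductions. mkV: induction on k, pw_rel for the head; the tail is mapped by the multiplication with `a` (degree n + k n). triR: row with outer factor `c` of degree (e n, e m), e = number of previous steps; state the
induction for general c with degrees (n0, m0): the row has total n0 + (k+1) n. In `RG` use n1 = n0, n2 = (k+1) n. (tens: the same inner list.) The functions are defined by List.rec: for each one prove first the equations by rfl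
(for instance `theorem vAdd_cons ... : vAdd O (a :: A) (b :: B) = O.add a b :: vAdd O A B := rfl`) and use them with simp / rw.
mxL: every element is at most mxL l (mxL is the maximum: a + (m - a)).
-/
set_option autoImplicit false

open Pool.Agent.MSQ

namespace Pool.Agent.PKD

theorem F3.len {α β γ : Type} {R : α → β → γ → Prop} {A : List α} {B : List β} {D : List γ} (h : F3 R A B D) :
    A.length = B.length ∧ A.length = D.length := by
  induction h with
  | nil => exact ⟨rfl, rfl⟩
  | cons _ _ ih => exact ⟨congrArg Nat.succ ih.1, congrArg Nat.succ ih.2⟩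
theorem F3.imp {α β γ : Type} {R S : α → β → γ → Prop} (hi : ∀ a b c, R a b c → S a b c) {A : List α} {B : List β}
    {D : List γ} (h : F3 R A B D) : F3 S A B D := by
  induction h with
  | nil => exact F3.nil
  | cons h _ ih => exact F3.cons (hi _ _ _ h) ih
theorem L3.mono {C : Cx} {n m n' m' : ℕ} {A D : List ℕ} {B : List ℝ} (h : L3 C n m A B D) (hn : n ≤ n')
    (hm : m ≤ m') : L3 C n' m' A B D := by
  exact F3.imp (fun _ _ _ h => h.mono hn hm le_rfl) h
theorem L3.rep {C : Cx} {n m k : ℕ} {a c : ℕ} {r : ℝ} (h : R3 C n m a r c) :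
    L3 C n m (List.replicate k a) (List.replicate k r) (List.replicate k c) := by
  induction k with
  | zero => exact F3.nil
  | succ k ih =>
    rw [List.replicate_succ, List.replicate_succ, List.replicate_succ]
    exact F3.cons h ih
theorem L3.app {C : Cx} {n m : ℕ} {A D A' D' : List ℕ} {B B' : List ℝ} (h : L3 C n m A B D)
    (h' : L3 C n m A' B' D') : L3 C n m (A ++ A') (B ++ B') (D ++ D') := by
  unfold L3 at h
  induction h with
  | nil => exact h'
  | cons h _ ih => exact F3.cons h ih
theorem pw_rel {C : Cx} {n m a c : ℕ} {r : ℝ} (h : R3 C n m a r c) (k : ℕ) :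
    R3 C (k * n) (k * m) (pw C.om a k) (pw C.rr r k) (pw ON c k) := by
  induction k with
  | zero => exact R3.nat C _ _ 1
  | succ k ih =>
    have h1 := h.mul ih
    refine h1.mono ?_ ?_ le_rfl
    · rw [Nat.succ_mul, Nat.add_comm]
    · rw [Nat.succ_mul, Nat.add_comm]
theorem L3.mapM {C : Cx} {n m n' m' a c : ℕ} {r : ℝ} (h : R3 C n m a r c) {A D : List ℕ} {B : List ℝ}
    (h' : L3 C n' m' A B D) :
    L3 C (n + n') (m + m') (A.map (C.om.mul a)) (B.map (C.rr.mul r)) (D.map (ON.mul c)) := by
  unfold L3 at h'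
  induction h' with
  | nil => exact F3.nil
  | cons k _ ih => exact F3.cons (h.mul k) ih

theorem mkV_rel {C : Cx} {n m a c a' c' : ℕ} {r r' : ℝ} (h : R3 C n m a r c) (h' : R3 C n m a' r' c') (k : ℕ) :
    L3 C (k * n) (k * m) (mkV C.om a a' k) (mkV C.rr r r' k) (mkV ON c c' k) := by
  induction k with
  | zero => exact F3.cons (R3.nat C _ _ 1) F3.nil
  | succ k ih =>
    refine F3.cons (pw_rel h' (k + 1)) ?_
    have h1 := L3.mapM h ih
    refine h1.mono ?_ ?_
    · rw [Nat.succ_mul, Nat.add_comm]
    · rw [Nat.succ_mul, Nat.add_comm]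
theorem tens_rel {C : Cx} {n m n' m' : ℕ} {A D A' D' : List ℕ} {B B' : List ℝ} (h : L3 C n m A B D)
    (h' : L3 C n' m' A' B' D') : RG C (n + n') (m + m') (tens A A') (tens B B') (tens D D') := by
  unfold L3 at h
  induction h with
  | nil => exact F3.nil
  | cons k _ ih => exact F3.cons ⟨n, m, n', m', le_rfl, le_rfl, k, h'⟩ ih
theorem triR_rel {C : Cx} {n m x y z x' y' z' : ℕ} {rx ry rz : ℝ} (hx : R3 C n m x rx x') (hy : R3 C n m y ry y')
    (hz : R3 C n m z rz z') (k n0 m0 : ℕ) {c c' : ℕ} {rc : ℝ} (hc : R3 C n0 m0 c rc c') :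
    RG C (n0 + k * n) (m0 + k * m) (triR C.om x y z k c) (triR C.rr rx ry rz k rc) (triR ON x' y' z' k c') := by
  induction k generalizing n0 m0 c c' rc with
  | zero =>
    exact F3.cons ⟨n0, m0, 0 * n, 0 * m, le_rfl, le_rfl, hc, F3.cons (R3.nat C _ _ 1) F3.nil⟩ F3.nil
  | succ k ih =>
    refine F3.cons ⟨n0, m0, (k + 1) * n, (k + 1) * m, le_rfl, le_rfl, hc, mkV_rel hy hz (k + 1)⟩ ?_
    have h1 := ih (n0 + n) (m0 + m) (hc.mul hx)
    have e1 : n0 + n + k * n = n0 + (k + 1) * n := by ring
    have e2 : m0 + m + k * m = m0 + (k + 1) * m := by ring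
    rw [e1, e2] at h1
    exact h1
theorem vAdd_rel {C : Cx} {n m : ℕ} {A D A' D' : List ℕ} {B B' : List ℝ} (h : L3 C n m A B D)
    (h' : L3 C n m A' B' D') : L3 C n m (vAdd C.om A A') (vAdd C.rr B B') (vAdd ON D D') := by
  unfold L3 at h
  induction h generalizing A' D' B' with
  | nil => exact F3.nil
  | cons k _ ih =>
    cases h' with
    | nil => exact F3.nil
    | cons k' t' => exact F3.cons (k.add k') (ih t')
theorem vSub_rel {C : Cx} {n m : ℕ} {A D A' D' : List ℕ} {B B' : List ℝ} (h : L3 C n m A B D)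
    (h' : L3 C n m A' B' D') : L3 C n m (vSub C.om A A') (vSub C.rr B B') (vSub ON D D') := by
  unfold L3 at h
  induction h generalizing A' D' B' with
  | nil => exact F3.nil
  | cons k _ ih =>
    cases h' with
    | nil => exact F3.nil
    | cons k' t' => exact F3.cons (k.sub k') (ih t')
theorem vSm_rel {C : Cx} {n m n' m' a c : ℕ} {r : ℝ} (h : R3 C n m a r c) {A D : List ℕ} {B : List ℝ}
    (h' : L3 C n' m' A B D) : L3 C (n + n') (m + m') (vSm C.om a A) (vSm C.rr r B) (vSm ON c D) := by
  unfold L3 at h'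
  induction h' with
  | nil => exact F3.nil
  | cons k _ ih => exact F3.cons (h.mul k) ih
theorem rowK_rel {C : Cx} {n m n' m' : ℕ} {l c l' c' : ℕ} {r r' : ℝ} (hl : R3 C n m l r c)
    (hl' : R3 C n' m' l' r' c') {T U : List ℕ} {V : List ℝ} (hT : L3 C (n + n') (m + m') T V U)
    {A D A' D' : List ℕ} {B B' : List ℝ} (h : L3 C n m A B D) (h' : L3 C n' m' A' B' D') :
    L3 C (n + n') (m + m') (rowK C.om l l' T A A') (rowK C.rr r r' V B B') (rowK ON c c' U D D') := by
  unfold L3 at h
  induction h generalizing A' D' B' with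
  | nil => exact hT
  | cons k _ ih =>
    cases h' with
    | nil => exact hT
    | cons k' t' =>
      have h1 := hl.mul k'
      have h2 := hl'.mul k
      rw [Nat.add_comm n' n, Nat.add_comm m' m] at h2
      exact F3.cons (h1.add h2) (ih t')

theorem vMul_rel {C : Cx} {n m n' m' : ℕ} {A D A' D' : List ℕ} {B B' : List ℝ} (h : L3 C n m A B D)
    (h' : L3 C n' m' A' B' D') :
    L3 C (n + n') (m + m') (vMul C.om A A') (vMul C.rr B B') (vMul ON D D') := by
  unfold L3 at h
  induction h generalizing A' D' B' with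
  | nil => exact F3.nil
  | cons k t ih =>
    cases h' with
    | nil => exact F3.nil
    | cons k' t' => exact F3.cons (k.mul k') (rowK_rel k k' (ih t') t t')
theorem mxL_cons (a : ℕ) (l : List ℕ) : mxL (a :: l) = a + (mxL l - a) := rfl

theorem le_mxL {l : List ℕ} {a : ℕ} (h : a ∈ l) : a ≤ mxL l := by
  induction l with
  | nil => simp at h
  | cons b l ih =>
    rw [mxL_cons]
    rcases List.mem_cons.mp h with h | h
    · omega
    · have := ih h
      omega
theorem mxL_le {l : List ℕ} {b : ℕ} (h : ∀ a ∈ l, a ≤ b) : mxL l ≤ b := by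
  induction l with
  | nil => exact Nat.zero_le _
  | cons a l ih =>
    rw [mxL_cons]
    have h1 := h a List.mem_cons_self
    have h2 := ih fun c hc => h c (List.mem_cons_of_mem _ hc)
    omega
/-- from three lists to two lists with a common bound -/
theorem L3.toC2 {C : Cx} {n κ : ℕ} {A D : List ℕ} {B : List ℝ} (h : L3 C n n A B D) (hk : mxL D ≤ κ) :
    C2 C n κ A B := by
  unfold L3 at h
  unfold C2
  induction h with
  | nil => exact List.Forall₂.nil
  | cons k _ ih =>
    rw [mxL_cons] at hk
    exact List.Forall₂.cons (k.mono le_rfl le_rfl (by omega)) (ih (by omega))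

end Pool.Agent.PKD
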